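import Mathlib.Analysis.InnerProductSpace.Adjoint
import Mathlib.Analysis.InnerProductSpace.ProdL2

/-! Upper triangular operators built from two semi-inner-product models and a form. -/

set_option autoImplicit false

namespace Pool.Agent.MP_fe3998_an.LS

noncomputable section

theorem lift_range {V E : Type} [AddCommGroup V] [Module ℂ V] [NormedAddCommGroup E]
    [InnerProductSpace ℂ E] (ι : V →ₗ[ℂ] E) :
    ∃ g : LinearMap.range ι →ₗ[ℂ] V, ∀ x, ι (g (ι.rangeRestrict x) - x) = 0 := by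
  obtain ⟨g, hg⟩ := ι.rangeRestrict.exists_rightInverse_of_surjective ι.range_rangeRestrict
  refine ⟨g, fun x => ?_⟩
  have := congrArg Subtype.val (LinearMap.congr_fun hg (ι.rangeRestrict x))
  rw [map_sub, sub_eq_zero]
  exact this

theorem fog {V V' E E' G : Type} [AddCommGroup V] [Module ℂ V] [AddCommGroup V'] [Module ℂ V']
    [NormedAddCommGroup E] [InnerProductSpace ℂ E] [FiniteDimensional ℂ E]
    [NormedAddCommGroup E'] [InnerProductSpace ℂ E'] [FiniteDimensional ℂ E']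
    [NormedAddCommGroup G] [InnerProductSpace ℂ G] [FiniteDimensional ℂ G]
    (ι : V →ₗ[ℂ] E) (ι' : V' →ₗ[ℂ] E') (B : Module.End ℂ V) (A : Module.End ℂ V')
    (Φ : V →ₗ[ℂ] G) (Φ' : V' →ₗ[ℂ] G) {γ δ : ℝ} (hγ : 0 ≤ γ) (hδ : 0 ≤ δ)
    (hB : ∀ n x, ‖ι ((B ^ n) x)‖ ≤ γ * ‖ι x‖) (hA : ∀ n y, ‖ι' ((A ^ n) y)‖ ≤ γ * ‖ι' y‖)
    (hc : ∀ n y x, ‖inner ℂ (Φ' y) (Φ ((B ^ n) x)) - inner ℂ (Φ' ((A ^ n) y)) (Φ x)‖
      ≤ δ * ‖ι' y‖ * ‖ι x‖) (x0 : V) (y0 : V') :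
    ∃ (H : Type) (_ : NormedAddCommGroup H) (_ : InnerProductSpace ℂ H) (_ : CompleteSpace H)
      (T : H →L[ℂ] H) (ξ η : H), (∀ n, ‖T ^ n‖ ≤ γ + δ) ∧ ‖ξ‖ = ‖ι x0‖ ∧ ‖η‖ = ‖ι' y0‖ ∧
      ∀ n, inner ℂ η ((T ^ n) ξ) =
        inner ℂ (Φ' y0) (Φ ((B ^ n) x0)) - inner ℂ (Φ' ((A ^ n) y0)) (Φ x0) := by
  obtain ⟨g, hg⟩ := lift_range ι
  obtain ⟨g', hg'⟩ := lift_range ι'
  set r := ι.rangeRestrict with hr
  set r' := ι'.rangeRestrict with hr'
  have nr : ∀ x, ‖r x‖ = ‖ι x‖ := fun _ => rfl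
  have nr' : ∀ x, ‖r' x‖ = ‖ι' x‖ := fun _ => rfl
  have sr : ∀ z, ∃ x, r x = z := fun z => LinearMap.range_eq_top.1 ι.range_rangeRestrict z
  have sr' : ∀ z, ∃ x, r' x = z := fun z => LinearMap.range_eq_top.1 ι'.range_rangeRestrict z
  set Bh : LinearMap.range ι →ₗ[ℂ] LinearMap.range ι := r ∘ₗ B ∘ₗ g with hBh
  set Ah : LinearMap.range ι' →ₗ[ℂ] LinearMap.range ι' := r' ∘ₗ A ∘ₗ g' with hAh
  have eB : ∀ x, Bh (r x) = r (B x) := fun x => by
    have := hB 1 (g (r x) - x)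
    rw [hg, norm_zero, mul_zero, pow_one, ← nr, norm_le_zero_iff, map_sub, map_sub,
      sub_eq_zero] at this
    exact this
  have eA : ∀ x, Ah (r' x) = r' (A x) := fun x => by
    have := hA 1 (g' (r' x) - x)
    rw [hg', norm_zero, mul_zero, pow_one, ← nr', norm_le_zero_iff, map_sub, map_sub,
      sub_eq_zero] at this
    exact this
  set X : LinearMap.range ι →ₗ[ℂ] LinearMap.range ι' :=
    LinearMap.adjoint (Φ' ∘ₗ g') ∘ₗ Φ ∘ₗ B ∘ₗ g - LinearMap.adjoint (Φ' ∘ₗ A ∘ₗ g') ∘ₗ Φ ∘ₗ g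
    with hX
  have eX : ∀ y x, inner ℂ (r' y) (X (r x)) =
      inner ℂ (Φ' y) (Φ (B x)) - inner ℂ (Φ' (A y)) (Φ x) := fun y x => by
    have h1 := hc 1 (g' (r' y) - y) (g (r x))
    have h2 := hc 1 y (g (r x) - x)
    rw [hg', norm_zero, mul_zero, zero_mul, norm_le_zero_iff] at h1
    rw [hg, norm_zero, mul_zero, norm_le_zero_iff] at h2
    simp only [pow_one, map_sub, inner_sub_left, inner_sub_right] at h1 h2
    simp only [hX, LinearMap.sub_apply, LinearMap.comp_apply, inner_sub_right,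
      LinearMap.adjoint_inner_right]
    linear_combination h1 + h2
  let H := WithLp 2 (LinearMap.range ι' × LinearMap.range ι)
  let e := WithLp.linearEquiv 2 ℂ (LinearMap.range ι' × LinearMap.range ι)
  let T0 : H →ₗ[ℂ] H := e.symm.toLinearMap ∘ₗ (LinearMap.prod
    (LinearMap.coprod (LinearMap.adjoint Ah) X) (Bh ∘ₗ LinearMap.snd ℂ _ _)) ∘ₗ e.toLinearMap
  let T : H →L[ℂ] H := LinearMap.toContinuousLinearMap T0
  have key : ∀ n (z : H) x, z.snd = r x → ((T ^ n) z).snd = r ((B ^ n) x) ∧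
      ∀ y, inner ℂ (r' y) ((T ^ n) z).fst = inner ℂ (r' ((A ^ n) y)) z.fst +
        (inner ℂ (Φ' y) (Φ ((B ^ n) x)) - inner ℂ (Φ' ((A ^ n) y)) (Φ x)) := by
    intro n z x hz
    induction n with
    | zero => exact ⟨hz, fun y => by simp⟩
    | succ n ih =>
      have e1 : ((T ^ (n + 1)) z).snd = Bh ((T ^ n) z).snd := by rw [pow_succ']; rfl
      have e2 : ((T ^ (n + 1)) z).fst =
          LinearMap.adjoint Ah ((T ^ n) z).fst + X ((T ^ n) z).snd := by rw [pow_succ']; rfl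
      refine ⟨by rw [e1, ih.1, eB, pow_succ']; rfl, fun y => ?_⟩
      rw [e2, inner_add_right, LinearMap.adjoint_inner_right, eA, ih.2, ih.1, eX, pow_succ' B,
        pow_succ A, Module.End.mul_apply, Module.End.mul_apply]
      ring
  refine ⟨H, inferInstance, inferInstance, FiniteDimensional.complete ℂ H, T,
    WithLp.toLp 2 (0, r x0), WithLp.toLp 2 (r' y0, 0), fun n => ?_, ?_, ?_, fun n => ?_⟩
  · refine ContinuousLinearMap.opNorm_le_bound _ (by positivity) fun z => ?_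
    obtain ⟨x, hx⟩ := sr z.snd
    obtain ⟨y, hy⟩ := sr' ((T ^ n) z).fst
    obtain ⟨k1, k2⟩ := key n z x hx.symm
    have k3 := k2 y
    have b1 : ‖((T ^ n) z).snd‖ ≤ γ * ‖z.snd‖ := by rw [k1, ← hx]; exact hB n x
    have b2 : ‖((T ^ n) z).fst‖ ≤ γ * ‖z.fst‖ + δ * ‖z.snd‖ := by
      rw [← hy, inner_self_eq_norm_sq_to_K] at k3
      have k4 := congrArg norm k3
      have k5 := hc n y x
      have k6 := (norm_inner_le_norm (𝕜 := ℂ) (r' ((A ^ n) y)) z.fst).trans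
        (mul_le_mul_of_nonneg_right (hA n y) (norm_nonneg _))
      have k7 := k4.le.trans ((norm_add_le _ _).trans (add_le_add k6 k5))
      rw [norm_pow, RCLike.norm_ofReal, abs_norm, ← nr', ← nr, hx] at k7
      rw [← hy]
      rcases (norm_nonneg (r' y)).eq_or_lt with h0 | h0
      · rw [← h0]; positivity
      · exact le_of_mul_le_mul_left (by nlinarith) h0
    have n1 := WithLp.prod_norm_sq_eq_of_L2 ((T ^ n) z)
    have n2 := WithLp.prod_norm_sq_eq_of_L2 z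
    refine (pow_le_pow_iff_left₀ (norm_nonneg _) (by positivity) two_ne_zero).1 ?_
    rw [mul_pow, n1, n2]
    have c1 := pow_le_pow_left₀ (norm_nonneg _) b1 2
    have c2 := pow_le_pow_left₀ (norm_nonneg _) b2 2
    nlinarith [mul_nonneg (mul_nonneg hγ hδ) (sq_nonneg (‖z.fst‖ - ‖z.snd‖)),
      mul_nonneg (mul_nonneg hγ hδ) (sq_nonneg ‖z.fst‖),
      mul_nonneg (mul_nonneg hγ hδ) (sq_nonneg ‖z.snd‖), mul_nonneg (sq_nonneg δ) (sq_nonneg ‖z.fst‖)]
  · rw [← nr]; simp [H]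
  · rw [← nr']; simp [H]
  · have := (key n (WithLp.toLp 2 (0, r x0)) x0 rfl).2 y0
    rw [WithLp.prod_inner_apply]
    simpa using this

end

end Pool.Agent.MP_fe3998_an.LS
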