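import Pool.Agent.MP_fe3998_an.LS.Norm
import Pool.Agent.MP_fe3998_an.LS.Fog

/-! The power bounded operator attached to a forest. -/

set_option autoImplicit false

namespace Pool.Agent.MP_fe3998_an.LS

open Finset

noncomputable section

open Classical

/-- the top carry from `a` to `b` is at a leaf and the lower digits off the peaks agree -/
def Psi (lf : Finset ℕ) (P : ℕ → Set ℕ) (a b : ℕ) : Prop :=
  a < b ∧ lv a b - 1 ∈ lf ∧
    ∀ l < lv a b - 1, l ∉ P (lv a b - 1) → a.testBit l = b.testBit l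

theorem cut_cut {S S' : ℕ → Prop} (h : ∀ a, S' a → S a) (x : ℕ → ℂ) :
    cut S (cut S' x) = cut S' x := by
  funext a
  rw [cut_apply, cut_apply]
  split_ifs with h1 h2 h2
  exacts [rfl, rfl, (h1 (h a h2)).elim, rfl]

/-- forward shift of the position -/
def fw : Module.End ℂ (ℕ → ℕ → ℂ) := LinearMap.pi fun j =>
  match j with
  | 0 => 0
  | j + 1 => cut (· ≤ j) ∘ₗ LinearMap.proj j

/-- backward shift of the position -/
def bw : Module.End ℂ (ℕ → ℕ → ℂ) := LinearMap.pi fun j =>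
  cut (j + 1 ≤ ·) ∘ₗ LinearMap.proj (j + 1)

theorem fw_hi (n j : ℕ) (x : ℕ → ℕ → ℂ) : (fw ^ (n + 1)) x (j + (n + 1)) = cut (· ≤ j) (x j) := by
  induction n with
  | zero => rfl
  | succ n ih =>
    have : (fw ^ (n + 1 + 1)) x (j + (n + 1 + 1)) =
      cut (· ≤ j + (n + 1)) ((fw ^ (n + 1)) x (j + (n + 1))) := by rw [pow_succ']; rfl
    rw [this, ih, cut_cut fun a ha => by omega]

theorem fw_lo (n : ℕ) (x : ℕ → ℕ → ℂ) : ∀ j < n, (fw ^ n) x j = 0 := by
  induction n with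
  | zero => intro j hj; omega
  | succ n ih =>
    intro j hj
    rw [pow_succ']
    rcases j with _ | j
    · rfl
    · have : (fw * fw ^ n) x (j + 1) = cut (· ≤ j) ((fw ^ n) x j) := rfl
      rw [this, ih j (by omega), map_zero]

theorem bw_eq (n : ℕ) (y : ℕ → ℕ → ℂ) :
    ∀ j, (bw ^ (n + 1)) y j = cut (j + (n + 1) ≤ ·) (y (j + (n + 1))) := by
  induction n with
  | zero => intro j; rfl
  | succ n ih =>
    intro j
    have : (bw ^ (n + 1 + 1)) y j = cut (j + 1 ≤ ·) ((bw ^ (n + 1)) y (j + 1)) := by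
      rw [pow_succ']; rfl
    rw [this, ih, cut_cut fun a ha => by omega, show j + 1 + (n + 1) = j + (n + 1 + 1) by omega]

theorem sum_up {α : Type} [AddCommMonoid α] (g : ℕ → α) (M n : ℕ) (hz : ∀ j < n, g j = 0) :
    ∑ j ∈ range M, g j = ∑ j ∈ range (M - n), g (j + n) := by
  rcases le_total n M with h | h
  · obtain ⟨d, rfl⟩ := Nat.exists_eq_add_of_le h
    rw [sum_range_add, sum_eq_zero fun j hj => hz j (mem_range.1 hj), zero_add,
      Nat.add_sub_cancel_left]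
    exact sum_congr rfl fun j _ => by rw [add_comm]
  · rw [Nat.sub_eq_zero_of_le h, range_zero, sum_empty]
    exact sum_eq_zero fun j hj => hz j (by have := mem_range.1 hj; omega)

theorem sum_dn {α : Type} [AddCommMonoid α] (g : ℕ → α) (M n : ℕ)
    (hz : ∀ j, M ≤ j + n → g j = 0) : ∑ j ∈ range M, g j = ∑ j ∈ range (M - n), g j :=
  (sum_subset (range_subset_range.2 (by omega)) fun j _ hj =>
    hz j (by have := mem_range.not.1 hj; omega)).symm

theorem sum_up_le (f : ℕ → ℝ) (hf : ∀ j, 0 ≤ f j) (M n : ℕ) :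
    ∑ j ∈ range (M - n), f (j + n) ≤ ∑ j ∈ range M, f j := by
  have := sum_up (fun j => if j < n then 0 else f j) M n fun j hj => if_pos hj
  simp only [show ∀ j, ¬ j + n < n from fun j => by omega, if_false] at this
  rw [← this]
  refine sum_le_sum fun j _ => ?_
  split_ifs
  exacts [hf j, le_rfl]

theorem sum_dn_le (f : ℕ → ℝ) (hf : ∀ j, 0 ≤ f j) (M n : ℕ) :
    ∑ j ∈ range (M - n), f j ≤ ∑ j ∈ range M, f j :=
  sum_le_sum_of_subset_of_nonneg (range_subset_range.2 (by omega)) fun j _ _ => hf j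

variable {K h : ℕ}

/-- all positions together -/
def iot (F : Forest 0 K h) (lam : ℝ) (S : ℕ → ℕ → Prop) :
    (ℕ → ℕ → ℂ) →ₗ[ℂ] PiLp 2 fun _ : Fin (2 ^ K) => Hs K h :=
  (WithLp.linearEquiv 2 ℂ _).symm.toLinearMap ∘ₗ LinearMap.pi fun j =>
    emb F lam j.1 ∘ₗ cut (S j.1) ∘ₗ LinearMap.proj j.1

theorem iot_sq (F : Forest 0 K h) (lam : ℝ) (S : ℕ → ℕ → Prop) (x : ℕ → ℕ → ℂ) :
    ‖iot F lam S x‖ ^ 2 = ∑ j ∈ range (2 ^ K), ‖emb F lam j (cut (S j) (x j))‖ ^ 2 := by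
  rw [PiLp.norm_sq_eq_of_L2,
    ← Fin.sum_univ_eq_sum_range (fun j => ‖emb F lam j (cut (S j) (x j))‖ ^ 2)]
  rfl

theorem of_sq {lam A B : ℝ} (h1 : lam < 1) (hB : 0 ≤ B) (H : (1 - lam) ^ 2 * A ^ 2 ≤ B ^ 2) :
    A ≤ (1 - lam)⁻¹ * B := by
  have h2 : 0 < 1 - lam := by linarith
  rw [le_inv_mul_iff₀ h2]
  exact (abs_le_of_sq_le_sq' (by rwa [mul_pow]) hB).2

theorem fw_le (F : Forest 0 K h) {lam : ℝ} (h0 : 0 < lam) (h1 : lam < 1) (n : ℕ)
    (x : ℕ → ℕ → ℂ) : ‖iot F lam (fun j a => a ≤ j) ((fw ^ n) x)‖ ≤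
      (1 - lam)⁻¹ * ‖iot F lam (fun j a => a ≤ j) x‖ := by
  refine of_sq h1 (norm_nonneg _) ?_
  rcases n with _ | n
  · exact mul_le_of_le_one_left (sq_nonneg _) (by nlinarith)
  rw [iot_sq, iot_sq, sum_up _ _ (n + 1) fun j hj => by rw [fw_lo _ _ j hj]; simp, mul_sum]
  refine le_trans (sum_le_sum fun j hj => ?_)
    (sum_dn_le (fun j => ‖emb F lam j (cut (· ≤ j) (x j))‖ ^ 2) (fun _ => sq_nonneg _) _ (n + 1))
  have := mem_range.1 hj
  rw [fw_hi, cut_cut fun a ha => by omega]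
  exact emb_move F h0 h1 (by omega) (by omega) (by omega) _ fun a _ ha =>
    lv_btw (cut_ne ha).1 (by omega)

theorem bw_le (F : Forest 0 K h) {lam : ℝ} (h0 : 0 < lam) (h1 : lam < 1) (n : ℕ)
    (y : ℕ → ℕ → ℂ) : ‖iot F lam (fun j a => j ≤ a) ((bw ^ n) y)‖ ≤
      (1 - lam)⁻¹ * ‖iot F lam (fun j a => j ≤ a) y‖ := by
  refine of_sq h1 (norm_nonneg _) ?_
  rcases n with _ | n
  · exact mul_le_of_le_one_left (sq_nonneg _) (by nlinarith)
  rw [iot_sq, iot_sq, sum_dn _ _ (n + 1) fun j hj => ?_, mul_sum]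
  · refine le_trans (sum_le_sum fun j hj => ?_) (sum_up_le
      (fun j => ‖emb F lam j (cut (j ≤ ·) (y j))‖ ^ 2) (fun _ => sq_nonneg _) _ (n + 1))
    have := mem_range.1 hj
    rw [bw_eq, cut_cut fun a ha => by omega]
    refine emb_move F h0 h1 (by omega) (by omega) (by omega) _ fun a _ ha => ?_
    rw [lv_comm a j, lv_btw (by omega : j ≤ j + (n + 1)) (cut_ne ha).1, max_comm, lv_comm a,
      lv_comm j]
  · rw [bw_eq, emb_ext F lam j (x' := 0) fun a ha => ?_]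
    · simp
    · by_contra h2
      have := (cut_ne (cut_ne h2).2).1
      omega

/-- the form at the position `j` -/
def kap (F : Forest 0 K h) (j : ℕ) (y x : ℕ → ℂ) : ℂ :=
  ∑ b ∈ range (2 ^ K), ∑ a ∈ range (2 ^ K),
    if Psi F.lf F.P a b ∧ lv j b < lv a b then (starRingEnd ℂ) (y b) * x a else 0

theorem corner (F : Forest 0 K h) {lam : ℝ} (h0 : 0 < lam) (h1 : lam < 1) {j j' : ℕ}
    (hj : j < j') (hj' : j' < 2 ^ K) (y x : ℕ → ℂ) (hy : ∀ b, y b ≠ 0 → j' ≤ b)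
    (hx : ∀ a, x a ≠ 0 → a ≤ j) :
    lam * (1 - lam) * (lam ^ h) ^ 2 * ‖kap F j' y x - kap F j y x‖ ≤
      ‖emb F lam j' y‖ * ‖emb F lam j x‖ := by
  obtain ⟨u, hu⟩ := Nat.exists_eq_succ_of_ne_zero (lv_eq_zero.not.2 hj.ne)
  have hK : u < K := by have := lv_le_of_lt (hj.trans hj') hj'; omega
  have e : kap F j' y x - kap F j y x = if u ∈ F.lf then
      inner ℂ (J K (F.P u ∪ Set.Ici u) (cut (fun a => lv a j' ≤ u) y))
        (J K (F.P u ∪ Set.Ici u) (cut (fun a => lv a j ≤ u) x)) else 0 := by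
    rw [inner_J, kap, kap, ← sum_sub_distrib, ite_sum_zero]
    refine sum_congr rfl fun b _ => ?_
    rw [← sum_sub_distrib, ite_sum_zero]
    refine sum_congr rfl fun a _ => ?_
    rw [cut_apply, cut_apply]
    by_cases hy0 : y b = 0
    · simp [hy0]
    by_cases hx0 : x a = 0
    · simp [hx0]
    have g1 := hy b hy0
    have g2 := hx a hx0
    have l1 := lv_btw g2 (by omega : j ≤ b)
    have l2 := lv_btw hj.le g1
    have l3 := lv_ne g2 (by omega : j < b)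
    rw [lv_comm b j']
    by_cases hc : lv a j ≤ u ∧ lv j' b ≤ u
    · have t1 : lv a b - 1 = u := by omega
      have t2 : Psi F.lf F.P a b ↔ u ∈ F.lf ∧
          dig K (F.P u ∪ Set.Ici u) a = dig K (F.P u ∪ Set.Ici u) b := by
        rw [Psi, t1, dig_eq]
        simp only [Set.mem_union, Set.mem_Ici, not_or, not_le]
        exact ⟨fun H => ⟨H.2.1, fun l _ hl => H.2.2 l hl.2 hl.1⟩,
          fun H => ⟨by omega, H.1, fun l hl hP => H.2 l (by omega) ⟨hP, hl⟩⟩⟩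
      have t3 : lv j' b < lv a b := by omega
      have t4 : ¬ lv j b < lv a b := by omega
      simp only [t2, t3, t4, hc.1, hc.2, and_true, and_false, if_true, if_false, sub_zero, ite_and]
    · have t3 : lv j' b < lv a b ↔ lv j b < lv a b := by omega
      simp only [t3, sub_self]
      rcases not_and_or.1 hc with h5 | h5 <;> simp [h5]
  have p : 0 ≤ lam * (1 - lam) := mul_nonneg h0.le (by linarith)
  rw [e]
  split_ifs with hl
  · have l1 := emb_leaf F h0 h1 hj' hl y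
    have l2 := emb_leaf F h0 h1 (hj.trans hj') hl x
    generalize J K (F.P u ∪ Set.Ici u) (cut (fun a => lv a j' ≤ u) y) = v at *
    generalize J K (F.P u ∪ Set.Ici u) (cut (fun a => lv a j ≤ u) x) = w at *
    refine (mul_le_mul_of_nonneg_left (norm_inner_le_norm v w)
      (mul_nonneg p (sq_nonneg _))).trans ?_
    refine (abs_le_of_sq_le_sq' ?_ (mul_nonneg (norm_nonneg _) (norm_nonneg _))).2
    rw [mul_pow ‖emb F lam j' y‖]
    refine le_trans (le_of_eq ?_) (mul_le_mul l1 l2 (mul_nonneg p (sq_nonneg _)) (sq_nonneg _))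
    ring
  · rw [norm_zero, mul_zero]
    exact mul_nonneg (norm_nonneg _) (norm_nonneg _)

/-- left factor of the form -/
def phL (K : ℕ) : (ℕ → ℕ → ℂ) →ₗ[ℂ] EuclideanSpace ℂ (Fin (2 ^ K) × Fin (2 ^ K)) :=
  (WithLp.linearEquiv 2 ℂ _).symm.toLinearMap ∘ₗ LinearMap.pi fun p =>
    LinearMap.proj p.2.1 ∘ₗ cut (p.1.1 ≤ ·) ∘ₗ LinearMap.proj p.1.1

/-- right factor of the form -/
def phR (F : Forest 0 K h) : (ℕ → ℕ → ℂ) →ₗ[ℂ] EuclideanSpace ℂ (Fin (2 ^ K) × Fin (2 ^ K)) :=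
  (WithLp.linearEquiv 2 ℂ _).symm.toLinearMap ∘ₗ LinearMap.pi fun p =>
    (∑ a ∈ range (2 ^ K), LinearMap.proj a) ∘ₗ
      cut (fun a => Psi F.lf F.P a p.2.1 ∧ lv p.1.1 p.2.1 < lv a p.2.1) ∘ₗ
        cut (· ≤ p.1.1) ∘ₗ LinearMap.proj p.1.1

theorem inner_ph (F : Forest 0 K h) (y x : ℕ → ℕ → ℂ) : inner ℂ (phL K y) (phR F x) =
    ∑ j ∈ range (2 ^ K), kap F j (cut (j ≤ ·) (y j)) (cut (· ≤ j) (x j)) := by
  rw [PiLp.inner_apply, Fintype.sum_prod_type,
    ← Fin.sum_univ_eq_sum_range (fun j => kap F j (cut (j ≤ ·) (y j)) (cut (· ≤ j) (x j)))]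
  refine sum_congr rfl fun j _ => ?_
  rw [kap, ← Fin.sum_univ_eq_sum_range (fun b => ∑ a ∈ range (2 ^ K),
    if Psi F.lf F.P a b ∧ lv j b < lv a b then
      (starRingEnd ℂ) (cut (j.1 ≤ ·) (y j) b) * cut (· ≤ j.1) (x j) a else 0)]
  refine sum_congr rfl fun b _ => ?_
  have e1 : phL K y (j, b) = cut (j.1 ≤ ·) (y j) b := rfl
  have e2 : phR F x (j, b) = (∑ a ∈ range (2 ^ K), LinearMap.proj (R := ℂ) (φ := fun _ => ℂ) a)
    (cut (fun a => Psi F.lf F.P a b ∧ lv j b < lv a b) (cut (· ≤ j.1) (x j))) := rfl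
  rw [e1, e2, RCLike.inner_apply', LinearMap.sum_apply, mul_sum]
  refine sum_congr rfl fun a _ => ?_
  rw [LinearMap.proj_apply, cut_apply (fun a => Psi F.lf F.P a b ∧ lv j b < lv a b)]
  split_ifs <;> simp

theorem comm_eq (F : Forest 0 K h) (n : ℕ) (y x : ℕ → ℕ → ℂ) :
    inner ℂ (phL K y) (phR F ((fw ^ (n + 1)) x)) - inner ℂ (phL K ((bw ^ (n + 1)) y)) (phR F x) =
    ∑ j ∈ range (2 ^ K - (n + 1)),
      (kap F (j + (n + 1)) (cut (j + (n + 1) ≤ ·) (y (j + (n + 1)))) (cut (· ≤ j) (x j)) -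
        kap F j (cut (j + (n + 1) ≤ ·) (y (j + (n + 1)))) (cut (· ≤ j) (x j))) := by
  rw [inner_ph, inner_ph, sum_up _ _ (n + 1) fun j hj => by rw [fw_lo _ _ j hj]; simp [kap],
    sum_dn _ (2 ^ K) (n + 1) fun j hj => ?_, ← sum_sub_distrib]
  · refine sum_congr rfl fun j _ => ?_
    rw [fw_hi, bw_eq, cut_cut fun a ha => by omega, cut_cut fun a ha => by omega]
  · refine sum_eq_zero fun b hb => sum_eq_zero fun a _ => ?_
    have : cut (j ≤ ·) ((bw ^ (n + 1)) y j) b = 0 := by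
      by_contra h2
      rw [bw_eq] at h2
      have := (cut_ne (cut_ne h2).2).1
      have := mem_range.1 hb
      omega
    simp [this]

theorem model (F : Forest 0 K h) {lam δ : ℝ} (h0 : 0 < lam) (h1 : lam < 1) (hδ : 0 ≤ δ) :
    ∃ (H : Type) (_ : NormedAddCommGroup H) (_ : InnerProductSpace ℂ H) (_ : CompleteSpace H)
      (T : H →L[ℂ] H) (ξ η : H), (∀ n, ‖T ^ n‖ ≤ (1 - lam)⁻¹ + δ) ∧ ‖ξ‖ ^ 2 = 2 ^ K ∧
      ‖η‖ ^ 2 = 2 ^ K ∧ ∀ n, inner ℂ η ((T ^ n) ξ) =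
        ((δ * (lam * (1 - lam) * (lam ^ h) ^ 2) : ℝ) : ℂ) *
          ∑ j ∈ range (2 ^ K - n), if Psi F.lf F.P j (j + n) then 1 else 0 := by
  have p : 0 ≤ lam * (1 - lam) * (lam ^ h) ^ 2 :=
    mul_nonneg (mul_nonneg h0.le (by linarith)) (sq_nonneg _)
  set w := lam * (1 - lam) * (lam ^ h) ^ 2 with hw
  have hc : ∀ n y x, ‖inner ℂ (phL K y) ((((δ * w : ℝ) : ℂ) • phR F) ((fw ^ n) x)) -
      inner ℂ (phL K ((bw ^ n) y)) ((((δ * w : ℝ) : ℂ) • phR F) x)‖ ≤
      δ * ‖iot F lam (fun j a => j ≤ a) y‖ * ‖iot F lam (fun j a => a ≤ j) x‖ := by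
    intro n y x
    have q := mul_nonneg (norm_nonneg (iot F lam (fun j a => j ≤ a) y))
      (norm_nonneg (iot F lam (fun j a => a ≤ j) x))
    rcases n with _ | n
    · rw [pow_zero, pow_zero, Module.End.one_apply, Module.End.one_apply, sub_self, norm_zero,
        mul_assoc]
      exact mul_nonneg hδ q
    rw [LinearMap.smul_apply, LinearMap.smul_apply, inner_smul_right, inner_smul_right, ← mul_sub,
      comm_eq, norm_mul, Complex.norm_real, Real.norm_of_nonneg (mul_nonneg hδ p), mul_assoc,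
      mul_assoc δ]
    refine mul_le_mul_of_nonneg_left ?_ hδ
    refine (mul_le_mul_of_nonneg_left (norm_sum_le _ _) p).trans ?_
    rw [mul_sum]
    refine le_trans (b := ∑ j ∈ range (2 ^ K - (n + 1)),
      ‖emb F lam (j + (n + 1)) (cut (j + (n + 1) ≤ ·) (y (j + (n + 1))))‖ *
        ‖emb F lam j (cut (· ≤ j) (x j))‖) (sum_le_sum fun j hj => ?_) ?_
    · have := mem_range.1 hj
      exact corner F h0 h1 (j := j) (j' := j + (n + 1)) (by omega) (by omega)
        _ _ (fun b hb => (cut_ne hb).1) fun a ha => (cut_ne ha).1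
    refine (abs_le_of_sq_le_sq' ((sum_mul_sq_le_sq_mul_sq _ _ _).trans ?_) q).2
    rw [mul_pow, iot_sq, iot_sq]
    exact mul_le_mul (sum_up_le (fun j => ‖emb F lam j (cut (j ≤ ·) (y j))‖ ^ 2)
      (fun _ => sq_nonneg _) _ (n + 1)) (sum_dn_le (fun j => ‖emb F lam j (cut (· ≤ j) (x j))‖ ^ 2)
      (fun _ => sq_nonneg _) _ (n + 1)) (sum_nonneg fun _ _ => sq_nonneg _)
      (sum_nonneg fun _ _ => sq_nonneg _)
  obtain ⟨H, i1, i2, i3, T, ξ, η, t1, t2, t3, t4⟩ := fog (iot F lam fun j a => a ≤ j)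
    (iot F lam fun j a => j ≤ a) fw bw (((δ * w : ℝ) : ℂ) • phR F) (phL K)
    (inv_nonneg.2 (by linarith)) hδ (fw_le F h0 h1) (bw_le F h0 h1) hc
    (fun j a => if a = j then 1 else 0) (fun j a => if a = j then 1 else 0)
  have one : ∀ S : ℕ → ℕ → Prop, (∀ j, S j j) →
      ‖iot F lam S fun j a => if a = j then 1 else 0‖ ^ 2 = 2 ^ K := fun S hS => by
    rw [iot_sq, sum_congr rfl fun j hj => emb_one F lam (mem_range.1 hj) fun a => ?_]
    · simp
    · rw [cut_apply]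
      by_cases h2 : a = j
      · simp [h2, hS]
      · simp [h2]
  refine ⟨H, i1, i2, i3, T, ξ, η, t1, by rw [t2, one (fun j a => a ≤ j) fun _ => le_rfl],
    by rw [t3, one (fun j a => j ≤ a) fun _ => le_rfl], fun n => ?_⟩
  rw [t4]
  rcases n with _ | n
  · simp [Psi]
  rw [LinearMap.smul_apply, LinearMap.smul_apply, inner_smul_right, inner_smul_right, ← mul_sub,
    comm_eq]
  congr 1
  refine sum_congr rfl fun j hj => ?_
  have hj' := mem_range.1 hj
  have key : ∀ i, kap F i (cut (j + (n + 1) ≤ ·) fun a => if a = j + (n + 1) then 1 else 0)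
      (cut (· ≤ j) fun a => if a = j then 1 else 0) =
      if Psi F.lf F.P j (j + (n + 1)) ∧ lv i (j + (n + 1)) < lv j (j + (n + 1)) then 1 else 0 := by
    intro i
    rw [kap, sum_eq_single (j + (n + 1)), sum_eq_single j]
    · simp [cut_apply]
    · intro a _ ha; simp [cut_apply, ha]
    · intro ha; exact (ha (mem_range.2 (by omega))).elim
    · intro a _ ha; simp [cut_apply, ha]
    · intro ha; exact (ha (mem_range.2 (by omega))).elim
  have z : lv j (j + (n + 1)) ≠ 0 := lv_eq_zero.not.2 (by omega)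
  rw [key, key, lv_eq_zero.2 rfl]
  simp [Nat.pos_of_ne_zero z]

end

end Pool.Agent.MP_fe3998_an.LS
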