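import Mathlib.Analysis.SpecialFunctions.Integrals.Basic
import Mathlib.Topology.ContinuousMap.Star

/-! Trigonometric polynomials with controlled frequencies and their mean values. -/

set_option autoImplicit false

namespace Pool.Agent.MP_fe3998_an.LS

open Finset Complex

noncomputable section

open Classical

/-- the character of frequency `n` -/
def e (n : ℤ) : C(ℝ, ℂ) := ⟨fun θ => exp (n * I * θ), by fun_prop⟩

theorem e_apply (n : ℤ) (θ : ℝ) : e n θ = exp (n * I * θ) := rfl

theorem e_zero : e 0 = 1 := by ext θ; simp [e_apply]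

theorem e_add (m n : ℤ) : e (m + n) = e m * e n := by
  ext θ; simp [e_apply, ← exp_add, add_mul]

theorem star_e (n : ℤ) : star (e n) = e (-n) := by
  ext θ
  rw [ContinuousMap.star_apply, e_apply, e_apply, star_def, ← exp_conj]
  simp

theorem norm_e (n : ℤ) (θ : ℝ) : ‖e n θ‖ = 1 := by
  rw [e_apply, show (n : ℂ) * I * θ = ((n * θ : ℝ) : ℂ) * I by push_cast; ring, norm_exp_ofReal_mul_I]

theorem e_at (n : ℤ) : e n 0 = 1 := by simp [e_apply]

/-- the mean over one period -/
def mean : C(ℝ, ℂ) →ₗ[ℂ] ℂ where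
  toFun f := (2 * Real.pi : ℝ)⁻¹ * ∫ θ in (0 : ℝ)..2 * Real.pi, f θ
  map_add' f g := by
    simp only [ContinuousMap.add_apply]
    rw [intervalIntegral.integral_add (f.continuous.intervalIntegrable _ _)
      (g.continuous.intervalIntegrable _ _), mul_add]
  map_smul' c f := by
    simp only [ContinuousMap.smul_apply, RingHom.id_apply, intervalIntegral.integral_const_mul,
      smul_eq_mul]
    ring

theorem mean_e (n : ℤ) : mean (e n) = if n = 0 then 1 else 0 := by
  have hp : (Real.pi : ℂ) ≠ 0 := by exact_mod_cast Real.pi_ne_zero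
  simp only [mean, LinearMap.coe_mk, AddHom.coe_mk, e_apply]
  split_ifs with h
  · subst h; simp; field_simp
  · rw [integral_exp_mul_complex (mul_ne_zero (by exact_mod_cast h) I_ne_zero)]
    have : exp (n * I * ((2 * Real.pi : ℝ) : ℂ)) = 1 := by
      rw [← exp_int_mul_two_pi_mul_I n]; congr 1; push_cast; ring
    rw [this]; simp

theorem mean_one : mean 1 = 1 := by rw [← e_zero, mean_e, if_pos rfl]

theorem mean_re (f : C(ℝ, ℂ)) :
    (mean f).re = (2 * Real.pi : ℝ)⁻¹ * ∫ θ in (0 : ℝ)..2 * Real.pi, (f θ).re := by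
  have := reCLM.intervalIntegral_comp_comm (f.continuous.intervalIntegrable (μ := MeasureTheory.volume)
    0 (2 * Real.pi))
  simp only [reCLM_apply] at this
  rw [this]
  simp only [mean, LinearMap.coe_mk, AddHom.coe_mk]
  rw [re_ofReal_mul]

theorem mean_nonneg {f : C(ℝ, ℂ)} (h : ∀ θ, 0 ≤ (f θ).re) : 0 ≤ (mean f).re := by
  rw [mean_re]
  exact mul_nonneg (by positivity)
    (intervalIntegral.integral_nonneg (by positivity) fun θ _ => h θ)

theorem mean_im {f : C(ℝ, ℂ)} (h : star f = f) : (mean f).im = 0 := by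
  have h1 : ∀ θ, ((-I • f) θ).re = 0 := fun θ => by
    have := conj_eq_iff_im.1 (congrArg (· θ) h)
    simp [this]
  have := mean_re (-I • f)
  simp only [h1, intervalIntegral.integral_zero, mul_zero, map_smul, smul_eq_mul] at this
  simpa using this

/-- frequencies are multiples of `2 ^ d` between `lo` and `hi` -/
def Bd (d : ℕ) (lo hi : ℤ) : Submodule ℂ C(ℝ, ℂ) :=
  Submodule.span ℂ (e '' {n | 2 ^ d ∣ n ∧ lo ≤ n ∧ n ≤ hi})

variable {d d' : ℕ} {lo hi lo' hi' : ℤ} {f g : C(ℝ, ℂ)}

theorem e_mem {n : ℤ} (h1 : 2 ^ d ∣ n) (h2 : lo ≤ n) (h3 : n ≤ hi) : e n ∈ Bd d lo hi :=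
  Submodule.subset_span ⟨n, ⟨h1, h2, h3⟩, rfl⟩

theorem one_mem (h2 : lo ≤ 0) (h3 : 0 ≤ hi) : 1 ∈ Bd d lo hi :=
  e_zero ▸ e_mem (dvd_zero _) h2 h3

theorem Bd_ind {p : C(ℝ, ℂ) → Prop} (h0 : p 0) (ha : ∀ f g, p f → p g → p (f + g))
    (hs : ∀ (c : ℂ) f, p f → p (c • f))
    (he : ∀ n : ℤ, 2 ^ d ∣ n → lo ≤ n → n ≤ hi → p (e n)) (hf : f ∈ Bd d lo hi) : p f := by
  induction hf using Submodule.span_induction with
  | mem x hx => obtain ⟨n, hn, rfl⟩ := hx; exact he n hn.1 hn.2.1 hn.2.2
  | zero => exact h0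
  | add x y _ _ hx hy => exact ha x y hx hy
  | smul c x _ hx => exact hs c x hx

theorem Bd_mono (hf : f ∈ Bd d lo hi) (h1 : d' ≤ d) (h2 : lo' ≤ lo) (h3 : hi ≤ hi') :
    f ∈ Bd d' lo' hi' :=
  Bd_ind (p := (· ∈ Bd d' lo' hi')) (zero_mem _) (fun _ _ => add_mem)
    (fun c _ => Submodule.smul_mem _ c)
    (fun _ a b c => e_mem ((pow_dvd_pow 2 h1).trans a) (h2.trans b) (c.trans h3)) hf

theorem Bd_mul (hf : f ∈ Bd d lo hi) (hg : g ∈ Bd d lo' hi') :
    f * g ∈ Bd d (lo + lo') (hi + hi') := by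
  refine Bd_ind (p := fun f => f * g ∈ Bd d (lo + lo') (hi + hi')) (by simp)
    (fun _ _ a b => by rw [add_mul]; exact add_mem a b)
    (fun c _ a => by rw [smul_mul_assoc]; exact Submodule.smul_mem _ c a) (fun m a b c => ?_) hf
  refine Bd_ind (p := fun g => e m * g ∈ Bd d (lo + lo') (hi + hi')) (by simp)
    (fun _ _ a b => by rw [mul_add]; exact add_mem a b)
    (fun c _ a => by rw [mul_smul_comm]; exact Submodule.smul_mem _ c a) (fun n a' b' c' => ?_) hg
  rw [← e_add]
  exact e_mem (dvd_add a a') (add_le_add b b') (add_le_add c c')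

theorem Bd_star (hf : f ∈ Bd d lo hi) : star f ∈ Bd d (-hi) (-lo) :=
  Bd_ind (p := fun f => star f ∈ Bd d (-hi) (-lo)) (by simp)
    (fun _ _ a b => by rw [star_add]; exact add_mem a b)
    (fun c _ a => by rw [star_smul]; exact Submodule.smul_mem _ _ a)
    (fun n a b c => by
      rw [star_e]; exact e_mem ((dvd_neg).2 a) (neg_le_neg c) (neg_le_neg b)) hf

theorem mean_Bd (hf : f ∈ Bd d lo hi) (h : 0 < lo ∨ hi < 0) : mean f = 0 :=
  Bd_ind (p := fun f => mean f = 0) (map_zero _)
    (fun _ _ a b => by rw [map_add, a, b, add_zero])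
    (fun c _ a => by rw [map_smul, a, smul_zero])
    (fun n _ b c => by rw [mean_e, if_neg (by omega)]) hf

theorem mean_mul (hf : f ∈ Bd d lo hi) (hg : g ∈ Bd d' lo' hi') (h1 : -2 ^ d' < lo)
    (h2 : hi < 2 ^ d') : mean (f * g) = mean f * mean g := by
  refine Bd_ind (p := fun f => mean (f * g) = mean f * mean g) (by simp)
    (fun _ _ a b => by rw [add_mul, map_add, map_add, a, b, add_mul])
    (fun c _ a => by rw [smul_mul_assoc, map_smul, map_smul, a, smul_mul_assoc])
    (fun m _ b c => ?_) hf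
  refine Bd_ind (p := fun g => mean (e m * g) = mean (e m) * mean g) (by simp)
    (fun _ _ a b => by rw [mul_add, map_add, map_add, a, b, mul_add])
    (fun c _ a => by rw [mul_smul_comm, map_smul, map_smul, a, mul_smul_comm])
    (fun n a' _ _ => ?_) hg
  rw [← e_add, mean_e, mean_e, mean_e]
  by_cases h : m + n = 0
  · have : m = 0 := Int.eq_zero_of_abs_lt_dvd (m := 2 ^ d')
      (by rw [show m = -n by omega]; exact dvd_neg.2 a') (abs_lt.2 ⟨by omega, by omega⟩)
    simp [this]
  · by_cases h3 : m = 0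
    · simp [h3]
    · simp [h, h3]

/-- Dirichlet kernel in the variable `2 ^ d θ` -/
def dir (d : ℕ) (n : ℤ) : C(ℝ, ℂ) := ∑ s ∈ Ioo (-n) n, e (2 ^ d * s)

theorem repro {n : ℤ} (hf : f ∈ Bd d lo hi) (h1 : -(2 ^ d * n) < lo) (h2 : hi < 2 ^ d * n) :
    mean (f * dir d n) = f 0 := by
  refine Bd_ind (p := fun f => mean (f * dir d n) = f 0) (by simp)
    (fun _ _ a b => by rw [add_mul, map_add, a, b, ContinuousMap.add_apply])
    (fun c _ a => by rw [smul_mul_assoc, map_smul, a, ContinuousMap.smul_apply])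
    (fun m a b c => ?_) hf
  obtain ⟨r, rfl⟩ := a
  have p : (0 : ℤ) < 2 ^ d := by positivity
  rw [dir, mul_sum, map_sum, e_at, sum_eq_single (-r)]
  · rw [← e_add, mean_e, if_pos (by ring)]
  · intro s _ hs
    rw [← e_add, mean_e, if_neg]
    rw [← mul_add]
    exact mul_ne_zero p.ne' (by omega)
  · intro hr
    refine (hr (mem_Ioo.2 ⟨?_, ?_⟩)).elim
    · have := lt_of_mul_lt_mul_left (c.trans_lt h2) p.le; omega
    · have := lt_of_mul_lt_mul_left (a := (2 : ℤ) ^ d) (b := -n) (c := r) (by linarith) p.le; omega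

theorem mean_sq_ge {n : ℕ} (hn : 0 < n) (hf : f ∈ Bd d lo hi) (h1 : -(2 ^ d * (n : ℤ)) < lo)
    (h2 : hi < 2 ^ d * (n : ℤ)) (hs : star f = f) (h0 : f 0 = n) :
    (n : ℝ) / 2 ≤ (mean (f * f)).re := by
  have p : (0 : ℤ) < 2 ^ d := by positivity
  have d1 : dir d n ∈ Bd d (2 ^ d * (-n + 1)) (2 ^ d * (n - 1)) :=
    Submodule.sum_mem _ fun s hs => by
      have := mem_Ioo.1 hs
      exact e_mem (dvd_mul_right _ _) (mul_le_mul_of_nonneg_left (by omega) p.le)
        (mul_le_mul_of_nonneg_left (by omega) p.le)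
  have d2 : star (dir d n) = dir d n := by
    rw [dir, star_sum]
    exact sum_equiv (Equiv.neg ℤ) (fun s => by simp only [mem_Ioo, Equiv.neg_apply]; omega)
      fun s _ => by rw [star_e, Equiv.neg_apply, mul_neg]
  have d3 : dir d n 0 = 2 * n - 1 := by
    rw [dir, ContinuousMap.sum_apply]
    simp only [e_at, sum_const, Int.card_Ioo, nsmul_eq_mul, mul_one]
    rw [show ((n : ℤ) - -n - 1).toNat = 2 * n - 1 by omega, Nat.cast_sub (by omega)]
    push_cast; ring
  have r1 := repro hf h1 h2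
  have r2 := repro (n := n) d1 (by linarith) (by linarith)
  have s1 : star ((2 : ℂ) • f - dir d n) = (2 : ℂ) • f - dir d n := by
    rw [star_sub, star_smul, hs, d2]; simp
  have := mean_nonneg (f := ((2 : ℂ) • f - dir d n) * star ((2 : ℂ) • f - dir d n)) fun θ => by
    rw [ContinuousMap.mul_apply, ContinuousMap.star_apply, star_def, mul_conj, ofReal_re]
    exact normSq_nonneg _
  have e1 : ((2 : ℂ) • f - dir d n) * ((2 : ℂ) • f - dir d n) =
      (4 : ℂ) • (f * f) - (4 : ℂ) • (f * dir d n) + dir d n * dir d n := by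
    ext θ; simp; ring
  rw [s1, e1, map_add, map_sub, map_smul, map_smul, r1, r2, h0, d3] at this
  simp at this
  linarith

/-- Riesz product over the peak levels below `u` -/
def rho (P : Set ℕ) (u : ℕ) : C(ℝ, ℂ) :=
  ∏ l ∈ range u, if l ∈ P then (1 / 2 : ℂ) • ((1 + e (2 ^ l)) * (1 + e (-2 ^ l))) else 1

theorem rho_mem {P : Set ℕ} {b : ℕ} : ∀ u, b ≤ u → (∀ l < u, l ∈ P → b ≤ l) →
    rho P u ∈ Bd b (2 ^ b - 2 ^ u) (2 ^ u - 2 ^ b) := by
  intro u hu
  induction u, hu using Nat.le_induction with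
  | base =>
    intro h
    rw [rho, prod_eq_one fun l hl => if_neg fun hP => ?_]
    · exact one_mem (by omega) (by omega)
    · have := mem_range.1 hl; have := h l this hP; omega
  | succ u hu ih =>
    intro h
    have p : (0 : ℤ) < 2 ^ u := by positivity
    have dv : (2 : ℤ) ^ b ∣ 2 ^ u := pow_dvd_pow 2 hu
    have : (if u ∈ P then (1 / 2 : ℂ) • ((1 + e (2 ^ u)) * (1 + e (-2 ^ u))) else 1) ∈
        Bd b (0 + -2 ^ u) (2 ^ u + 0) := by
      split_ifs
      · exact Submodule.smul_mem _ _ (Bd_mul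
          (add_mem (one_mem le_rfl p.le) (e_mem dv p.le le_rfl))
          (add_mem (one_mem (by omega) le_rfl) (e_mem (dvd_neg.2 dv) le_rfl (by omega))))
      · exact one_mem (by omega) (by omega)
    rw [rho, prod_range_succ]
    exact Bd_mono (Bd_mul (ih fun l hl => h l (by omega)) this) le_rfl (by omega) (by omega)

theorem rho_star (P : Set ℕ) (u : ℕ) : star (rho P u) = rho P u := by
  rw [rho, star_prod]
  refine prod_congr rfl fun l _ => ?_
  split_ifs
  · rw [star_smul, star_mul, star_add, star_add, star_e, star_e, star_one, neg_neg]; simp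
  · exact star_one _

theorem mean_rho {P : Set ℕ} : ∀ u, mean (rho P u) = 1 := by
  intro u
  induction u with
  | zero => simp [rho, mean_one]
  | succ u ih =>
    have p : (0 : ℤ) < 2 ^ u := by positivity
    have r := rho_mem (P := P) (b := 0) u (Nat.zero_le _) fun _ _ _ => Nat.zero_le _
    rw [rho, prod_range_succ, ← rho]
    split_ifs
    · have : rho P u * (1 / 2 : ℂ) • ((1 + e (2 ^ u)) * (1 + e (-2 ^ u))) = rho P u +
          (1 / 2 : ℂ) • (rho P u * e (2 ^ u) + rho P u * e (-2 ^ u)) := by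
        have : e (2 ^ u) * e (-2 ^ u) = 1 := by rw [← e_add, add_neg_cancel, e_zero]
        ext θ
        have := congrArg (· θ) this
        simp at this ⊢
        linear_combination (1 / 2 * rho P u θ) * this
      rw [this, map_add, map_smul, map_add, ih,
        mean_Bd (Bd_mul r (e_mem (by simp) le_rfl le_rfl)) (by omega),
        mean_Bd (Bd_mul r (e_mem (by simp) le_rfl le_rfl)) (by omega)]
      simp
    · rw [mul_one, ih]

theorem fej_bd (b L : ℕ) : rho (Set.Ico b (b + L)) (b + L) 0 = 2 ^ L ∧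
    ∀ θ, ∃ r : ℝ, 0 ≤ r ∧ r ≤ 2 ^ L ∧ rho (Set.Ico b (b + L)) (b + L) θ = r := by
  have e1 : rho (Set.Ico b (b + L)) (b + L) =
      ∏ l ∈ range L, (1 / 2 : ℂ) • ((1 + e (2 ^ (b + l))) * (1 + e (-2 ^ (b + l)))) := by
    rw [rho, prod_range_add, prod_eq_one fun l hl => ?_, one_mul]
    · exact prod_congr rfl fun l hl => if_pos ⟨by omega, by have := mem_range.1 hl; omega⟩
    · exact if_neg fun h => by have := mem_range.1 hl; have := h.1; omega
  rw [e1]
  constructor
  · simp only [ContinuousMap.prod_apply, ContinuousMap.smul_apply, ContinuousMap.mul_apply,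
      ContinuousMap.add_apply, ContinuousMap.one_apply, e_at, prod_const, card_range, smul_eq_mul]
    norm_num
  · intro θ
    refine ⟨∏ l ∈ range L, ‖1 + e (2 ^ (b + l)) θ‖ ^ 2 / 2, by positivity, ?_, ?_⟩
    · refine (prod_le_prod (g := fun _ => 2) (fun _ _ => by positivity) fun l _ => ?_).trans (by simp)
      have := norm_add_le 1 (e (2 ^ (b + l)) θ)
      rw [norm_e, norm_one] at this
      nlinarith [norm_nonneg (1 + e (2 ^ (b + l)) θ)]
    · rw [ContinuousMap.prod_apply, ofReal_prod]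
      refine prod_congr rfl fun l _ => ?_
      rw [← star_e]
      simp only [ContinuousMap.smul_apply, ContinuousMap.mul_apply, ContinuousMap.add_apply,
        ContinuousMap.one_apply, ContinuousMap.star_apply, star_def, smul_eq_mul]
      push_cast
      rw [← mul_conj', map_add, map_one]
      ring

theorem rho_union {P : Set ℕ} {b L c u : ℕ} (hc : b + L ≤ c) (hu : c ≤ u)
    (hP : ∀ l < u, l ∈ P → c ≤ l) :
    rho (Set.Ico b (b + L) ∪ P) u = rho (Set.Ico b (b + L)) (b + L) * rho P u := by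
  have : rho (Set.Ico b (b + L)) (b + L) = rho (Set.Ico b (b + L)) u :=
    prod_subset (range_subset_range.2 (by omega)) fun l _ hl => if_neg fun h => hl (mem_range.2 h.2)
  rw [this, rho, rho, rho, ← prod_mul_distrib]
  refine prod_congr rfl fun l hl => ?_
  by_cases h1 : l ∈ Set.Ico b (b + L)
  · have h2 : l ∉ P := fun h => by have := hP l (mem_range.1 hl) h; have := h1.2; omega
    rw [if_pos (Set.mem_union_left P h1), if_pos h1, if_neg h2, mul_one]
  · simp only [Set.mem_union, h1, false_or, if_false, one_mul]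

end

end Pool.Agent.MP_fe3998_an.LS
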