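import Pool.Agent.MP_fe3998_an.LS.Lv
import Pool.Agent.MP_fe3998_an.LS.Trig

/-! The recursive construction of the forest and of the polynomial. -/

set_option autoImplicit false

namespace Pool.Agent.MP_fe3998_an.LS

open Finset Complex

noncomputable section

/-- a forest on the levels `a ≤ t < b` and a bounded polynomial with gain at least `G` -/
def St (a b h : ℕ) (G α : ℝ) : Prop :=
  ∃ (F : Forest a b h) (X : C(ℝ, ℂ)), X ∈ Bd a (2 ^ a) (2 ^ b - 2 ^ a) ∧ (∀ θ, ‖X θ‖ ≤ 1) ∧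
    G ≤ (∑ u ∈ F.lf, mean (X * (e (-2 ^ u) * rho (F.P u) u))).re ∧ (mean (X * star X)).re ≤ α

theorem two_le {a b : ℕ} (h : a ≤ b) : (2 : ℤ) ^ a ≤ 2 ^ b := pow_le_pow_right₀ one_le_two h

theorem sq_apply (X : C(ℝ, ℂ)) (θ : ℝ) : (X * star X) θ = ((‖X θ‖ ^ 2 : ℝ) : ℂ) := by
  rw [ContinuousMap.mul_apply, ContinuousMap.star_apply, star_def, mul_conj']
  push_cast; rfl

theorem St.step {a b c f h L : ℕ} {G G' α β : ℝ} (h1 : St a b (h + 1) G α) (h2 : St c f h G' β)
    (hab : a ≤ b) (hc : c = b + L + 2) (hf : c ≤ f) (hα : α ≤ 1 / 2) (hG : 0 ≤ G') :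
    St a f (h + 1) (G + G' / 8) (α + 1 / 2 ^ L) := by
  obtain ⟨F, X, x1, x2, x3, x4⟩ := h1
  obtain ⟨F', q, q1, q2, q3, -⟩ := h2
  obtain ⟨f0, f1⟩ := fej_bd b L
  have f2 := rho_mem (P := Set.Ico b (b + L)) (b := b) (b + L) (by omega) fun l _ hl => hl.1
  have f3 := rho_star (Set.Ico b (b + L)) (b + L)
  have f4 := mean_rho (P := Set.Ico b (b + L)) (b + L)
  set j := rho (Set.Ico b (b + L)) (b + L) with hj
  have pa : (0 : ℤ) < 2 ^ a := by positivity
  have pab := two_le hab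
  have pbL := two_le (by omega : b ≤ b + L)
  have pc : (2 : ℤ) ^ c = 4 * 2 ^ (b + L) := by rw [hc, pow_add _ _ 2]; ring
  have pcf := two_le hf
  have pL : (0 : ℝ) < 2 ^ L := by positivity
  have y1 : 1 - X * star X ∈ Bd a (1 - 2 ^ b) (2 ^ b - 1) :=
    sub_mem (one_mem (by omega) (by omega))
      (Bd_mono (Bd_mul x1 (Bd_star x1)) le_rfl (by omega) (by omega))
  set w : C(ℝ, ℂ) := (((2 * 2 ^ L)⁻¹ : ℝ) : ℂ) • ((1 - X * star X) * j) with hw
  have w1 : w ∈ Bd a (-2 ^ (b + L)) (2 ^ (b + L)) := Submodule.smul_mem _ _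
    (Bd_mono (Bd_mul y1 (Bd_mono f2 hab le_rfl le_rfl)) le_rfl (by omega) (by omega))
  have w2 := Bd_mul w1 (Bd_mono q1 (by omega : a ≤ c) le_rfl le_rfl)
  have w3 : ∀ θ, ∃ r : ℝ, 0 ≤ r ∧ r ≤ 1 ∧ j θ = ((2 ^ L * r : ℝ) : ℂ) ∧
      ‖(X + w * q) θ‖ ≤ ‖X θ‖ + (1 - ‖X θ‖ ^ 2) * r / 2 := fun θ => by
    obtain ⟨r, r0, r1, r2⟩ := f1 θ
    refine ⟨r / 2 ^ L, by positivity, (div_le_one pL).2 r1, by rw [r2, mul_div_cancel₀ _ pL.ne'], ?_⟩
    have p : 0 ≤ 1 - ‖X θ‖ ^ 2 := by nlinarith [x2 θ, norm_nonneg (X θ)]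
    have : w θ = (((1 - ‖X θ‖ ^ 2) * (r / 2 ^ L) / 2 : ℝ) : ℂ) := by
      rw [hw, ContinuousMap.smul_apply, ContinuousMap.mul_apply, ContinuousMap.sub_apply, sq_apply,
        r2, ContinuousMap.one_apply, smul_eq_mul]
      push_cast; ring
    rw [ContinuousMap.add_apply, ContinuousMap.mul_apply, this]
    refine (norm_add_le _ _).trans (add_le_add le_rfl ?_)
    rw [norm_mul, norm_real, Real.norm_of_nonneg (by positivity)]
    exact mul_le_of_le_one_right (by positivity) (q2 θ)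
  have w4 : ∀ θ, ‖(X + w * q) θ‖ ≤ 1 := fun θ => by
    obtain ⟨r, r0, r1, -, r3⟩ := w3 θ
    have p : 0 ≤ 1 - ‖X θ‖ ^ 2 := by nlinarith [x2 θ, norm_nonneg (X θ)]
    nlinarith [mul_le_mul_of_nonneg_left r1 p, sq_nonneg (1 - ‖X θ‖)]
  have m1 : (mean (w * j)).im = 0 := mean_im (by
    rw [hw, star_mul, star_smul, star_mul, star_sub, star_mul, star_star, star_one, f3, star_def,
      conj_ofReal, mul_comm j, mul_comm j])
  have m2 : 1 / 8 ≤ (mean (w * j)).re := by
    have pw : (2 : ℤ) ^ (b + L) = 2 ^ b * ((2 ^ L : ℕ) : ℤ) := by push_cast; ring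
    have n1 := mean_sq_ge (n := 2 ^ L) (by positivity) f2 (by omega) (by omega) f3
      (by rw [f0]; push_cast; rfl)
    have n2 : (mean (X * star X)).im = 0 := mean_im (by rw [star_mul, star_star])
    rw [hw, smul_mul_assoc, mul_assoc, map_smul, mean_mul y1 (Bd_mul f2 f2) (by omega) (by omega),
      map_sub, mean_one, smul_eq_mul, re_ofReal_mul, mul_re, sub_im, n2, one_im, sub_re, one_re,
      le_inv_mul_iff₀ (by positivity)]
    push_cast at n1
    nlinarith [mul_le_mul (by linarith : 1 / 2 ≤ 1 - (mean (X * star X)).re) n1 (by positivity)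
      (by linarith)]
  refine ⟨F.snoc F' L hab (by omega) hf, X + w * q, add_mem (Bd_mono x1 le_rfl le_rfl (by omega))
    (Bd_mono w2 le_rfl (by omega) (by omega)), w4, ?_, ?_⟩
  · have dj : Disjoint F.lf F'.lf := disjoint_left.2 fun u h3 h4 => by
      have := F.lf_mem u h3; have := F'.lf_mem u h4; omega
    have s1 : ∑ u ∈ F.lf, mean ((X + w * q) *
        (e (-2 ^ u) * rho ((F.snoc F' L hab (by omega) hf).P u) u)) =
        ∑ u ∈ F.lf, mean (X * (e (-2 ^ u) * rho (F.P u) u)) := sum_congr rfl fun u hu => by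
      have h3 := (F.lf_mem u hu).2.1
      have h4 := two_le (by omega : u + 1 ≤ b)
      have : (F.snoc F' L hab (by omega) hf).P u = F.P u := if_pos h3
      have r := rho_mem (P := F.P u) (b := 0) u (Nat.zero_le _) fun _ _ _ => Nat.zero_le _
      rw [this, add_mul, map_add, mean_Bd (Bd_mul (Bd_mono w2 (Nat.zero_le _) le_rfl le_rfl)
        (Bd_mul (e_mem (by simp) le_rfl le_rfl) r)) (by omega), add_zero]
    have s2 : ∑ u ∈ F'.lf, mean ((X + w * q) *
        (e (-2 ^ u) * rho ((F.snoc F' L hab (by omega) hf).P u) u)) =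
        mean (w * j) * ∑ u ∈ F'.lf, mean (q * (e (-2 ^ u) * rho (F'.P u) u)) := by
      rw [mul_sum]
      refine sum_congr rfl fun u hu => ?_
      have h3 := (F'.lf_mem u hu).1
      have : (F.snoc F' L hab (by omega) hf).P u = Set.Ico b (b + L) ∪ F'.P u := if_neg (by omega)
      have r := rho_mem (P := Set.Ico b (b + L) ∪ F'.P u) (b := b) u (by omega) fun l hl h4 => by
        rcases h4 with h4 | h4
        · exact h4.1
        · have := F'.P_lo hu hl h4; omega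
      have r' := rho_mem (P := F'.P u) (b := c) u h3 fun l hl h4 => F'.P_lo hu hl h4
      rw [this, add_mul, map_add, mean_Bd (Bd_mul (Bd_mono x1 (Nat.zero_le _) le_rfl le_rfl)
        (Bd_mul (e_mem (by simp) le_rfl le_rfl) (Bd_mono r (Nat.zero_le _) le_rfl le_rfl)))
        (by omega), zero_add, rho_union (by omega) h3 fun l hl h4 => F'.P_lo hu hl h4,
        ← mean_mul (Bd_mul w1 (Bd_mono f2 hab le_rfl le_rfl))
          (Bd_mul q1 (Bd_mul (e_mem (dvd_neg.2 (pow_dvd_pow 2 h3)) le_rfl le_rfl) r'))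
          (by omega) (by omega)]
      congr 1
      ring
    have : (F.snoc F' L hab (by omega) hf).lf = F.lf ∪ F'.lf := rfl
    rw [this, sum_union dj, s1, s2, add_re, mul_re, m1]
    nlinarith [mul_le_mul m2 q3 hG (by linarith)]
  · have := mean_nonneg (f := X * star X + (((2 ^ L)⁻¹ : ℝ) : ℂ) • j -
      (X + w * q) * star (X + w * q)) fun θ => by
      obtain ⟨r, r0, r1, r2, r3⟩ := w3 θ
      rw [ContinuousMap.sub_apply, ContinuousMap.add_apply, sq_apply, sq_apply,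
        ContinuousMap.smul_apply, r2, smul_eq_mul, ← ofReal_mul, ← ofReal_add, ← ofReal_sub,
        ofReal_re, inv_mul_cancel_left₀ pL.ne']
      have a1 := w4 θ
      have a2 := x2 θ
      have a3 := norm_nonneg (X θ)
      have a4 := norm_nonneg ((X + w * q) θ)
      have a5 : ‖(X + w * q) θ‖ ≤ ‖X θ‖ + r / 2 := by nlinarith [mul_nonneg (sq_nonneg ‖X θ‖) r0]
      nlinarith [mul_le_mul_of_nonneg_right a5 (add_nonneg a3 a4)]
    rw [map_sub, map_add, map_smul, f4, sub_re, add_re, smul_eq_mul, mul_one, ofReal_re] at this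
    rw [one_div]
    linarith

theorem St.leaf (a K h : ℕ) (hK : 1 ≤ K) : St a (a + K) h 1 1 := by
  have p := two_le (by omega : a + 1 ≤ a + K)
  refine ⟨Forest.triv a (a + K) h {a} (by simp; omega), e (2 ^ a),
    e_mem dvd_rfl le_rfl (by omega), fun θ => (norm_e _ _).le, ?_, ?_⟩
  · simp only [Forest.triv, sum_singleton]
    simp [rho, ← e_add, mean_e]
  · simp [star_e, ← e_add, mean_e]

theorem St.pad {a b f h : ℕ} {G G' α : ℝ} (H : St a b h G α) (hf : b ≤ f) (hG : G' ≤ G) :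
    St a f h G' α := by
  obtain ⟨F, X, x1, x2, x3, x4⟩ := H
  have := two_le hf
  exact ⟨F.pad f hf, X, Bd_mono x1 le_rfl le_rfl (by omega), x2, hG.trans x3, x4⟩

theorem St.groups {h L D : ℕ} {G : ℝ} (hG : 0 ≤ G) (H : ∀ c, ∃ β, St c (c + L) h G β) (a : ℕ)
    (hD : 2 * D ≤ 2 ^ L) : St a (a + D * (2 * L + 2)) (h + 1) (D * G / 8) (D / 2 ^ L) := by
  induction D with
  | zero =>
    exact ⟨Forest.triv _ _ _ ∅ (by simp), 0, zero_mem _, by simp, by simp [Forest.triv], by simp⟩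
  | succ D ih =>
    obtain ⟨β, hβ⟩ := H (a + D * (2 * L + 2) + L + 2)
    have p : (2 : ℝ) * D ≤ 2 ^ L := by exact_mod_cast (by omega : 2 * D ≤ 2 ^ L)
    have := (ih (by omega)).step hβ (by omega) rfl (by omega)
      (by rw [div_le_iff₀ (by positivity)]; linarith) hG
    convert this using 1
    · ring
    · push_cast; ring
    · push_cast; ring

/-- the tower function -/
def tw : ℕ → ℕ
  | 0 => 1
  | h + 1 => 2 ^ tw h

theorem St.main (h : ℕ) : ∀ K, 1 ≤ K → K ≤ tw h → ∀ a, ∃ β,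
    St a (a + K) h (K / (64 * 64 ^ h)) β := by
  have small : ∀ h K : ℕ, 1 ≤ K → K ≤ 64 → ∀ a, ∃ β, St a (a + K) h (K / (64 * 64 ^ h)) β :=
    fun h K h1 h2 a => ⟨1, (St.leaf a K h h1).pad le_rfl (by
      have : (K : ℝ) ≤ 64 := by exact_mod_cast h2
      have : (1 : ℝ) ≤ 64 ^ h := one_le_pow₀ (by norm_num)
      rw [div_le_one (by positivity)]; linarith)⟩
  induction h with
  | zero => exact fun K h1 h2 => small 0 K h1 (by simp only [tw] at h2; omega)
  | succ h ih =>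
    intro K h1 h2 a
    by_cases h3 : K ≤ 64
    · exact small _ K h1 h3 a
    have l1 : K ≤ 2 ^ Nat.clog 2 K := Nat.le_pow_clog one_lt_two K
    have l2 : Nat.clog 2 K ≤ tw h := (Nat.clog_le_iff_le_pow one_lt_two).2 h2
    have l3 : 6 < Nat.clog 2 K := (Nat.lt_clog_iff_pow_lt one_lt_two).2 (by omega)
    have l4 : 2 ^ (Nat.clog 2 K - 1) < K := (Nat.lt_clog_iff_pow_lt one_lt_two).1 (by omega)
    generalize Nat.clog 2 K = L at *
    obtain ⟨r, rfl⟩ : ∃ r, L = r + 4 := ⟨L - 4, by omega⟩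
    have l5 : r < 2 ^ r := Nat.lt_two_pow_self
    rw [show r + 4 - 1 = r + 3 from rfl, pow_add] at l4
    have d1 := Nat.div_mul_le_self K (2 * (r + 4) + 2)
    have d2 := Nat.lt_mul_div_succ K (by omega : 0 < 2 * (r + 4) + 2)
    have d3 : 0 < K / (2 * (r + 4) + 2) := Nat.div_pos (by omega) (by omega)
    generalize K / (2 * (r + 4) + 2) = D at *
    refine ⟨_, (St.groups (D := D) (by positivity) (ih (r + 4) (by omega) l2) a
      (by nlinarith)).pad (by omega) ?_⟩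
    have d4 : (K : ℝ) ≤ 8 * (D * (r + 4 : ℕ)) := by exact_mod_cast (by nlinarith : K ≤ 8 * (D * (r + 4)))
    rw [div_le_iff₀ (by positivity)]
    refine d4.trans (le_of_eq ?_)
    field_simp
    ring

end

end Pool.Agent.MP_fe3998_an.LS
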