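import Mathlib.Analysis.Complex.AbsMax
import Mathlib.Analysis.Calculus.Deriv.Polynomial
import Mathlib.Analysis.Normed.Lp.lpHolder
import Mathlib.Analysis.InnerProductSpace.l2Space
import Pool.Agent.MP_fe3998_an.LS.Model
import Pool.Agent.MP_fe3998_an.LS.Poly

/-! The polynomial applied to the operator of its forest, and the direct sum. -/

set_option autoImplicit false

namespace Pool.Agent.MP_fe3998_an.LS

open Finset Complex

noncomputable section

open Classical

theorem sum_two {α : Type} [AddCommMonoid α] (K : ℕ) (g : ℕ → α) :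
    ∑ x ∈ range (2 ^ (K + 1)), g x = ∑ x ∈ range (2 ^ K), (g x + g (2 ^ K + x)) := by
  rw [pow_succ, mul_two, sum_range_add, sum_add_distrib]

theorem agree_sum (P : Set ℕ) (u : ℕ) : (∑ x ∈ range (2 ^ u), ∑ y ∈ range (2 ^ u),
    if ∀ l < u, l ∉ P → x.testBit l = y.testBit l then e (x - y) else 0) =
      (2 ^ u : ℂ) • rho P u := by
  induction u with
  | zero => simp [rho, e_zero]
  | succ u ih =>
    have key : ∀ x ∈ range (2 ^ u), ∀ y ∈ range (2 ^ u),
        ((if ∀ l < u + 1, l ∉ P → x.testBit l = y.testBit l then e (x - y) else 0) +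
        (if ∀ l < u + 1, l ∉ P → x.testBit l = (2 ^ u + y).testBit l
          then e (x - (2 ^ u + y : ℕ)) else 0)) +
        ((if ∀ l < u + 1, l ∉ P → (2 ^ u + x).testBit l = y.testBit l
          then e ((2 ^ u + x : ℕ) - y) else 0) +
        (if ∀ l < u + 1, l ∉ P → (2 ^ u + x).testBit l = (2 ^ u + y).testBit l
          then e ((2 ^ u + x : ℕ) - (2 ^ u + y : ℕ)) else 0)) =
        (if ∀ l < u, l ∉ P → x.testBit l = y.testBit l then e (x - y) else 0) * (2 : ℂ) •
          (if u ∈ P then (1 / 2 : ℂ) • ((1 + e (2 ^ u)) * (1 + e (-2 ^ u))) else 1) := by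
      intro x hx y hy
      have bx := Nat.testBit_lt_two_pow (mem_range.1 hx)
      have by' := Nat.testBit_lt_two_pow (mem_range.1 hy)
      have lo : ∀ z, ∀ l < u, (2 ^ u + z).testBit l = z.testBit l :=
        fun z l hl => Nat.testBit_two_pow_add_gt hl z
      have e1 : e ((2 ^ u + x : ℕ) - y) = e (x - y) * e (2 ^ u) := by
        rw [← e_add]; congr 1; push_cast; ring
      have e2 : e (x - (2 ^ u + y : ℕ)) = e (x - y) * e (-2 ^ u) := by
        rw [← e_add]; congr 1; push_cast; ring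
      have e3 : e ((2 ^ u + x : ℕ) - (2 ^ u + y : ℕ)) = e (x - y) := by
        congr 1; push_cast; ring
      have e4 : e (2 ^ u) * e (-2 ^ u) = 1 := by rw [← e_add, add_neg_cancel, e_zero]
      simp +contextual only [Nat.forall_lt_succ_right, lo, Nat.testBit_two_pow_add_eq, bx, by', e1,
        e2, e3]
      by_cases h1 : ∀ l < u, l ∉ P → x.testBit l = y.testBit l
      · by_cases h2 : u ∈ P
        · simp only [h2, if_pos h1, not_true_eq_false, false_implies, and_true, if_true]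
          ext θ
          have := congrArg (· θ) e4
          simp at this ⊢
          linear_combination (-e (x - y) θ) * this
        · ext θ; simp [h2, if_pos h1]; ring
      · simp only [h1, false_and, if_false, add_zero, zero_mul]
    simp only [sum_two u, sum_add_distrib]
    simp only [← sum_add_distrib]
    rw [sum_congr rfl fun x hx => sum_congr rfl fun y hy => key x hx y hy]
    simp only [← sum_mul]
    rw [ih, rho, rho, prod_range_succ, smul_mul_smul_comm, pow_succ]

theorem psi_sum (lf : Finset ℕ) (P : ℕ → Set ℕ) (K : ℕ) :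
    (2 : ℂ) • (∑ x ∈ range (2 ^ K), ∑ y ∈ range (2 ^ K), if Psi lf P x y then e (x - y) else 0) =
      (2 ^ K : ℂ) • ∑ u ∈ range K, if u ∈ lf then e (-2 ^ u) * rho (P u) u else 0 := by
  induction K with
  | zero => simp [Psi]
  | succ K ih =>
    have key : ∀ x ∈ range (2 ^ K), ∀ y ∈ range (2 ^ K),
        ((if Psi lf P x y then e (x - y) else 0) +
        (if Psi lf P x (2 ^ K + y) then e (x - (2 ^ K + y : ℕ)) else 0)) +
        ((if Psi lf P (2 ^ K + x) y then e ((2 ^ K + x : ℕ) - y) else 0) +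
        (if Psi lf P (2 ^ K + x) (2 ^ K + y) then e ((2 ^ K + x : ℕ) - (2 ^ K + y : ℕ)) else 0)) =
        (2 : ℂ) • (if Psi lf P x y then e (x - y) else 0) + (if K ∈ lf then e (-2 ^ K) else 0) *
          (if ∀ l < K, l ∉ P K → x.testBit l = y.testBit l then e (x - y) else 0) := by
      intro x hx y hy
      have hx := mem_range.1 hx
      have hy := mem_range.1 hy
      have lo : ∀ z, ∀ l < K, (2 ^ K + z).testBit l = z.testBit l :=
        fun z l hl => Nat.testBit_two_pow_add_gt hl z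
      have e2 : e (x - (2 ^ K + y : ℕ)) = e (-2 ^ K) * e (x - y) := by
        rw [← e_add]; congr 1; push_cast; ring
      have e3 : e ((2 ^ K + x : ℕ) - (2 ^ K + y : ℕ)) = e (x - y) := by
        congr 1; push_cast; ring
      have p1 : ¬ Psi lf P (2 ^ K + x) y := fun h => by have := h.1; omega
      have p2 : Psi lf P x (2 ^ K + y) ↔
          K ∈ lf ∧ ∀ l < K, l ∉ P K → x.testBit l = y.testBit l := by
        rw [Psi, lv_cross hx hy, Nat.add_sub_cancel]
        simp +contextual only [lo, show x < 2 ^ K + y by omega, true_and]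
      have p3 : Psi lf P (2 ^ K + x) (2 ^ K + y) ↔ Psi lf P x y := by
        have := lv_le_of_lt hx hy
        rw [Psi, Psi, lv_shift hx hy, Nat.add_lt_add_iff_left]
        refine and_congr_right fun _ => and_congr_right fun _ => forall_congr' fun l =>
          forall_congr' fun hl => ?_
        rw [lo x l (by omega), lo y l (by omega)]
      rw [if_neg p1, e2, e3]
      simp only [p2, p3, ite_and]
      ext θ
      split_ifs <;> simp <;> ring
    simp only [sum_two K, sum_add_distrib]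
    simp only [← sum_add_distrib]
    rw [sum_congr rfl fun x hx => sum_congr rfl fun y hy => key x hx y hy]
    simp only [sum_add_distrib, ← mul_sum, ← smul_sum]
    rw [ih, agree_sum, sum_range_succ]
    generalize (∑ u ∈ range K, if u ∈ lf then e (-2 ^ u) * rho (P u) u else 0) = S
    ext θ
    split_ifs <;> simp <;> ring

theorem exists_poly {N : ℕ} {X : C(ℝ, ℂ)} {lo hi : ℤ} (hX : X ∈ Bd 0 lo hi) (h1 : 0 ≤ lo)
    (h2 : hi ≤ N) : ∃ p : Polynomial ℂ, p.natDegree ≤ N ∧ (∀ θ, p.eval (e 1 θ) = X θ) ∧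
      ∀ (φ : Polynomial ℂ →ₗ[ℂ] ℂ) (Θ : C(ℝ, ℂ)),
        (∀ n : ℕ, φ (Polynomial.X ^ n) = mean (e n * Θ)) → φ p = mean (X * Θ) := by
  refine Bd_ind (p := fun X => ∃ p : Polynomial ℂ, p.natDegree ≤ N ∧
      (∀ θ, p.eval (e 1 θ) = X θ) ∧ ∀ (φ : Polynomial ℂ →ₗ[ℂ] ℂ) (Θ : C(ℝ, ℂ)),
        (∀ n : ℕ, φ (Polynomial.X ^ n) = mean (e n * Θ)) → φ p = mean (X * Θ))
    ⟨0, by simp, by simp, by simp⟩ ?_ ?_ ?_ hX
  · rintro f g ⟨p, a1, a2, a3⟩ ⟨q, b1, b2, b3⟩
    exact ⟨p + q, Polynomial.natDegree_add_le_of_degree_le a1 b1, fun θ => by simp [a2, b2],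
      fun φ Θ h => by rw [map_add, add_mul, map_add, a3 φ Θ h, b3 φ Θ h]⟩
  · rintro c f ⟨p, a1, a2, a3⟩
    exact ⟨c • p, (Polynomial.natDegree_smul_le _ _).trans a1, fun θ => by simp [a2],
      fun φ Θ h => by rw [map_smul, smul_mul_assoc, map_smul, a3 φ Θ h]⟩
  · intro n _ a b
    lift n to ℕ using h1.trans a
    refine ⟨Polynomial.X ^ n, by rw [Polynomial.natDegree_X_pow]; omega, fun θ => ?_,
      fun φ Θ h => h n⟩
    rw [Polynomial.eval_pow, Polynomial.eval_X, e_apply, e_apply, ← exp_nat_mul]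
    congr 1; push_cast; ring

theorem disc_le {p : Polynomial ℂ} (h : ∀ θ : ℝ, ‖p.eval (e 1 θ)‖ ≤ 1) (z : ℂ) (hz : ‖z‖ ≤ 1) :
    ‖p.eval z‖ ≤ 1 := by
  refine norm_le_of_forall_mem_frontier_norm_le (f := fun z => p.eval z)
    (Metric.isBounded_ball (x := 0) (r := 1)) p.differentiable.diffContOnCl (fun w hw => ?_) ?_
  · rw [frontier_ball _ one_ne_zero, mem_sphere_zero_iff_norm] at hw
    have := norm_mul_exp_arg_mul_I w
    rw [hw, ofReal_one, one_mul] at this
    have h2 := h (arg w)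
    rwa [e_apply, Int.cast_one, one_mul, mul_comm, this] at h2
  · rwa [closure_ball _ one_ne_zero, mem_closedBall_zero_iff]

theorem single_op {K h : ℕ} {G β lam δ : ℝ} (H : St 0 K h G β) (h0 : 0 < lam) (h1 : lam < 1)
    (hδ : 0 ≤ δ) :
    ∃ (H : Type) (_ : NormedAddCommGroup H) (_ : InnerProductSpace ℂ H) (_ : CompleteSpace H)
      (T : H →L[ℂ] H), (∀ n, ‖T ^ n‖ ≤ (1 - lam)⁻¹ + δ) ∧ ∃ p : Polynomial ℂ,
        p.natDegree ≤ 2 ^ K ∧ (∀ z : ℂ, ‖z‖ ≤ 1 → ‖p.eval z‖ ≤ 1) ∧
        δ * (lam * (1 - lam) * (lam ^ h) ^ 2) * G / 2 ≤ ‖Polynomial.aeval T p‖ := by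
  obtain ⟨F, X, x1, x2, x3, -⟩ := H
  obtain ⟨H, i1, i2, i3, T, ξ, η, t1, t2, t3, t4⟩ := model F h0 h1 hδ
  obtain ⟨p, p1, p2, p3⟩ := exists_poly (N := 2 ^ K) x1 (by norm_num) (by push_cast; omega)
  refine ⟨H, i1, i2, i3, T, t1, p, p1, disc_le fun θ => by rw [p2]; exact x2 θ, ?_⟩
  have ps : 0 ≤ δ * (lam * (1 - lam) * (lam ^ h) ^ 2) :=
    mul_nonneg hδ (mul_nonneg (mul_nonneg h0.le (by linarith)) (sq_nonneg _))
  generalize δ * (lam * (1 - lam) * (lam ^ h) ^ 2) = s at *
  have k1 := p3 ((innerSL ℂ η).toLinearMap ∘ₗ (ContinuousLinearMap.apply ℂ H ξ).toLinearMap ∘ₗ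
    (Polynomial.aeval T).toLinearMap) ((s : ℂ) • ∑ x ∈ range (2 ^ K), ∑ y ∈ range (2 ^ K),
      if Psi F.lf F.P x y then e (x - y) else 0) fun n => by
    change inner ℂ η ((Polynomial.aeval T (Polynomial.X ^ n : Polynomial ℂ)) ξ) = _
    rw [map_pow, Polynomial.aeval_X, t4, mul_smul_comm, map_smul, smul_eq_mul,
      mul_sum (a := e n), map_sum, sum_dn _ (2 ^ K) n fun j hj => ?_]
    · congr 1
      refine sum_congr rfl fun j hj => ?_
      have := mem_range.1 hj
      rw [mul_sum, map_sum, sum_eq_single (j + n)]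
      · split_ifs
        · rw [← e_add, mean_e, if_pos (by push_cast; ring)]
        · simp
      · intro y _ hy
        split_ifs
        · rw [← e_add, mean_e, if_neg (by omega)]
        · simp
      · intro hy; exact (hy (mem_range.2 (by omega))).elim
    · rw [mul_sum, map_sum]
      refine sum_eq_zero fun y hy => ?_
      have := mem_range.1 hy
      split_ifs
      · rw [← e_add, mean_e, if_neg (by omega)]
      · simp
  have k2 : (2 : ℂ) * inner ℂ η (Polynomial.aeval T p ξ) =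
      ((s * 2 ^ K : ℝ) : ℂ) * ∑ u ∈ F.lf, mean (X * (e (-2 ^ u) * rho (F.P u) u)) := by
    have k3 : inner ℂ η (Polynomial.aeval T p ξ) = _ := k1
    have k4 : (range K).filter (· ∈ F.lf) = F.lf := by
      ext u
      simp only [mem_filter, mem_range]
      exact ⟨fun h => h.2, fun h => ⟨(F.lf_mem u h).2.1, h⟩⟩
    rw [k3, ← smul_eq_mul, ← map_smul, ← mul_smul_comm, smul_comm, psi_sum, ← sum_filter, k4,
      smul_smul, mul_smul_comm, map_smul, mul_sum, map_sum, smul_eq_mul]
    push_cast; rfl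
  have k5 : ‖η‖ = ‖ξ‖ := (pow_left_inj₀ (norm_nonneg _) (norm_nonneg _) two_ne_zero).1 (t3.trans t2.symm)
  have k6 := (norm_inner_le_norm (𝕜 := ℂ) η (Polynomial.aeval T p ξ)).trans
    (mul_le_mul_of_nonneg_left ((Polynomial.aeval T p).le_opNorm ξ) (norm_nonneg _))
  have k7 := congrArg re k2
  rw [re_ofReal_mul, show (2 : ℂ) = ((2 : ℝ) : ℂ) by simp, re_ofReal_mul] at k7
  have k8 := re_le_norm (inner ℂ η (Polynomial.aeval T p ξ))
  have k9 := mul_le_mul_of_nonneg_left x3 (by positivity : 0 ≤ s * 2 ^ K)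
  rw [k5, mul_left_comm, ← sq, t2] at k6
  refine le_of_mul_le_mul_right ?_ (by positivity : (0 : ℝ) < 2 ^ K)
  linarith

theorem dsum {ι : Type} {c : ℝ} (hc : 0 ≤ c) (H : ι → Type) [∀ i, NormedAddCommGroup (H i)]
    [∀ i, InnerProductSpace ℂ (H i)] (T : ∀ i, H i →L[ℂ] H i) (hT : ∀ i n, ‖T i ^ n‖ ≤ c) :
    ∃ S : lp H 2 →L[ℂ] lp H 2, (∀ n, ‖S ^ n‖ ≤ c) ∧
      ∀ i (p : Polynomial ℂ), ‖Polynomial.aeval (T i) p‖ ≤ ‖Polynomial.aeval S p‖ := by
  have h1 : ∀ i, ‖T i‖ ≤ c := fun i => by simpa using hT i 1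
  have key : ∀ n (x : lp H 2) i, ((lp.mapCLM 2 T hc h1 ^ n) x) i = (T i ^ n) (x i) := by
    intro n x i
    induction n with
    | zero => rfl
    | succ n ih => rw [pow_succ', pow_succ', mul_apply_eq_comp, mul_apply_eq_comp, ← ih]; rfl
  refine ⟨lp.mapCLM 2 T hc h1, fun n => ?_, fun i p => ?_⟩
  · have : lp.mapCLM 2 T hc h1 ^ n = lp.mapCLM 2 (fun i => T i ^ n) hc fun i => hT i n :=
      ContinuousLinearMap.ext fun x => lp.ext (funext fun i => key n x i)
    rw [this]
    exact lp.norm_mapCLM_le _ _ _ _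
  · have k2 : ∀ x : lp H 2, (Polynomial.aeval (lp.mapCLM 2 T hc h1) p x) i =
        Polynomial.aeval (T i) p (x i) := fun x => by
      induction p using Polynomial.induction_on' with
      | add p q hp hq => simp [hp, hq]
      | monomial n a =>
        simp only [Polynomial.aeval_monomial, Algebra.algebraMap_eq_smul_one, smul_mul_assoc,
          one_mul, _root_.smul_apply, lp.coeFn_smul, Pi.smul_apply, key]
    refine ContinuousLinearMap.opNorm_le_bound _ (ContinuousLinearMap.opNorm_nonneg _) fun v => ?_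
    have k3 := k2 (lp.single 2 i v)
    rw [lp.single_apply_self] at k3
    rw [← k3, ← lp.norm_single (p := 2) (by norm_num) i v]
    exact (lp.norm_apply_le_norm (by norm_num) _ i).trans (ContinuousLinearMap.le_opNorm _ _)

end

end Pool.Agent.MP_fe3998_an.LS
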