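import Mathlib.Data.Nat.Bitwise
import Mathlib.Data.Finset.Basic
import Mathlib.Order.Interval.Set.Basic
import Mathlib.Tactic

/-! Levels of pairs of positions and forests of levels. -/

set_option autoImplicit false

namespace Pool.Agent.MP_fe3998_an.LS

theorem ex_lv (a m : ℕ) : ∃ u, a / 2 ^ u = m / 2 ^ u := by
  refine ⟨a + m, ?_⟩
  have h : a + m < 2 ^ (a + m) := Nat.lt_two_pow_self
  rw [Nat.div_eq_of_lt (by omega), Nat.div_eq_of_lt (by omega)]

/-- the least `u` such that `a` and `m` lie in one dyadic block of length `2 ^ u` -/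
def lv (a m : ℕ) : ℕ := Nat.find (ex_lv a m)

theorem lv_le {a m u : ℕ} : lv a m ≤ u ↔ a / 2 ^ u = m / 2 ^ u := by
  constructor
  · intro h
    obtain ⟨d, rfl⟩ := Nat.exists_eq_add_of_le h
    have := Nat.find_spec (ex_lv a m)
    rw [pow_add, ← Nat.div_div_eq_div_mul, ← Nat.div_div_eq_div_mul]
    unfold lv
    rw [this]
  · intro h
    exact Nat.find_min' _ h

theorem lv_comm (a m : ℕ) : lv a m = lv m a :=
  eq_of_forall_ge_iff fun u => by rw [lv_le, lv_le, eq_comm]

theorem lv_eq_zero {a m : ℕ} : lv a m = 0 ↔ a = m := by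
  rw [← Nat.le_zero, lv_le]; simp

theorem lv_btw {a m b : ℕ} (h1 : a ≤ m) (h2 : m ≤ b) : lv a b = max (lv a m) (lv m b) := by
  refine eq_of_forall_ge_iff fun u => ?_
  rw [max_le_iff, lv_le, lv_le, lv_le]
  have e1 : a / 2 ^ u ≤ m / 2 ^ u := Nat.div_le_div_right h1
  have e2 : m / 2 ^ u ≤ b / 2 ^ u := Nat.div_le_div_right h2
  omega

theorem div_succ (a t : ℕ) : a / 2 ^ (t + 1) = a / 2 ^ t / 2 := by
  rw [pow_succ, Nat.div_div_eq_div_mul]

theorem lv_ne {a m b : ℕ} (h1 : a ≤ m) (h2 : m < b) : lv a m ≠ lv m b := by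
  intro h
  have h0 : lv m b ≠ 0 := fun h0 => by have := lv_eq_zero.1 h0; omega
  obtain ⟨t, ht⟩ := Nat.exists_eq_succ_of_ne_zero h0
  have e1 : a / 2 ^ t ≤ m / 2 ^ t := Nat.div_le_div_right h1
  have e2 : m / 2 ^ t ≤ b / 2 ^ t := Nat.div_le_div_right h2.le
  have a1 : a / 2 ^ (t + 1) = m / 2 ^ (t + 1) := lv_le.1 (by omega)
  have a2 : m / 2 ^ (t + 1) = b / 2 ^ (t + 1) := lv_le.1 (by omega)
  have n1 : ¬ a / 2 ^ t = m / 2 ^ t := fun h => by have := lv_le.2 h; omega
  have n2 : ¬ m / 2 ^ t = b / 2 ^ t := fun h => by have := lv_le.2 h; omega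
  rw [div_succ, div_succ] at a1 a2
  omega

theorem bit_eq {a b m s l : ℕ} (ha : lv a m ≤ s) (hb : lv b m ≤ s) (hl : s ≤ l) :
    a.testBit l = b.testBit l := by
  rw [Nat.testBit_eq_decide_div_mod_eq, Nat.testBit_eq_decide_div_mod_eq,
    lv_le.1 (ha.trans hl), lv_le.1 (hb.trans hl)]

theorem bit_ne {a b m t : ℕ} (ha : lv a m = t + 1) (hb : lv b m ≤ t) :
    a.testBit t ≠ b.testBit t := by
  have a1 : a / 2 ^ (t + 1) = m / 2 ^ (t + 1) := lv_le.1 ha.le
  have n1 : ¬ a / 2 ^ t = m / 2 ^ t := fun h => by have := lv_le.2 h; omega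
  have b1 := lv_le.1 hb
  rw [div_succ, div_succ] at a1
  rw [Nat.testBit_eq_decide_div_mod_eq, Nat.testBit_eq_decide_div_mod_eq, b1]
  simp only [ne_eq, decide_eq_decide]
  omega

theorem lv_le_of_lt {a m K : ℕ} (ha : a < 2 ^ K) (hm : m < 2 ^ K) : lv a m ≤ K := by
  rw [lv_le, Nat.div_eq_of_lt ha, Nat.div_eq_of_lt hm]

theorem lv_shift {x y K : ℕ} (hx : x < 2 ^ K) (hy : y < 2 ^ K) :
    lv (2 ^ K + x) (2 ^ K + y) = lv x y := by
  have key : ∀ u, u ≤ K → ∀ z, (2 ^ K + z) / 2 ^ u = 2 ^ (K - u) + z / 2 ^ u := by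
    intro u hu z
    have : 2 ^ K = 2 ^ u * 2 ^ (K - u) := by rw [← pow_add]; congr 1; omega
    rw [this, Nat.mul_add_div (by positivity)]
  have h1 : lv x y ≤ K := lv_le_of_lt hx hy
  have h2 : lv (2 ^ K + x) (2 ^ K + y) ≤ K := by
    rw [lv_le, key K le_rfl, key K le_rfl, lv_le.1 h1]
  refine eq_of_forall_ge_iff fun u => ?_
  by_cases hu : u ≤ K
  · rw [lv_le, lv_le, key u hu, key u hu]; omega
  · constructor <;> intro _ <;> omega

theorem lv_cross {x y K : ℕ} (hx : x < 2 ^ K) (hy : y < 2 ^ K) : lv x (2 ^ K + y) = K + 1 := by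
  have h1 : lv x (2 ^ K + y) ≤ K + 1 := lv_le_of_lt (by omega) (by omega)
  have h2 : ¬ lv x (2 ^ K + y) ≤ K := by
    rw [lv_le, Nat.div_eq_of_lt hx]
    have : 0 < (2 ^ K + y) / 2 ^ K := Nat.div_pos (by omega) (by positivity)
    omega
  omega

/-- nested nodes on the levels `a ≤ t < b`, with leaves at depth `h` -/
structure Forest (a b h : ℕ) where
  s : ℕ → ℕ → ℕ
  L : ℕ → ℕ → Set ℕ
  lf : Finset ℕ
  P : ℕ → Set ℕ
  s_lo : ∀ k t, a ≤ t → t < b → a ≤ s k t
  s_le : ∀ k t, a ≤ t → t < b → s k t ≤ t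
  s_mono : ∀ k t, a ≤ t → t < b → s k t ≤ s (k + 1) t
  cst : ∀ k t t', a ≤ t → t < b → s k t ≤ t' → t' ≤ t → s k t' = s k t ∧ L k t' = L k t
  L_lo : ∀ k t, a ≤ t → t < b → ∀ l ∈ L k t, s 0 t ≤ l
  L_step : ∀ k t, a ≤ t → t < b → ∀ l < s (k + 1) t, (l ∈ L (k + 1) t ↔ l ∈ L k t)
  L_alt : ∀ k t, a ≤ t → t < b → s (k + 1) t = s k t ∨ ∀ l ∈ L k t, l < s (k + 1) t
  lf_mem : ∀ u ∈ lf, a ≤ u ∧ u < b ∧ s h u = u ∧ ∀ l < u, (l ∈ P u ↔ l ∈ L h u)

namespace Forest

variable {a b h : ℕ}

theorem P_lo (F : Forest a b h) {u : ℕ} (hu : u ∈ F.lf) {l : ℕ} (hl : l < u) (hP : l ∈ F.P u) :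
    a ≤ l := by
  obtain ⟨h1, h2, -, h4⟩ := F.lf_mem u hu
  exact (F.s_lo 0 u h1 h2).trans (F.L_lo h u h1 h2 l ((h4 l hl).1 hP))

/-- trivial nodes with a given set of leaves -/
def triv (a b h : ℕ) (lf : Finset ℕ) (hl : ∀ u ∈ lf, a ≤ u ∧ u < b) : Forest a b h where
  s _ t := t
  L _ _ := ∅
  lf := lf
  P _ := ∅
  s_lo _ _ h _ := h
  s_le _ _ _ _ := le_rfl
  s_mono _ _ _ _ := le_rfl
  cst _ _ _ _ _ h1 h2 := ⟨le_antisymm h2 h1, rfl⟩
  L_lo _ _ _ _ _ h := h.elim
  L_step _ _ _ _ _ _ := Iff.rfl
  L_alt _ _ _ _ := Or.inl rfl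
  lf_mem u hu := ⟨(hl u hu).1, (hl u hu).2, rfl, fun _ _ => Iff.rfl⟩

/-- more levels on top -/
def pad (F : Forest a b h) (e : ℕ) (he : b ≤ e) : Forest a e h where
  s k t := if t < b then F.s k t else t
  L k t := if t < b then F.L k t else ∅
  lf := F.lf
  P := F.P
  s_lo k t h1 _ := by
    split_ifs with h
    exacts [F.s_lo k t h1 h, h1]
  s_le k t h1 _ := by
    split_ifs with h
    exacts [F.s_le k t h1 h, le_rfl]
  s_mono k t h1 _ := by
    split_ifs with h
    exacts [F.s_mono k t h1 h, le_rfl]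
  cst k t t' h1 _ h3 h4 := by
    by_cases h : t < b
    · have h' : t' < b := by omega
      simp only [h, h', if_true] at h3 ⊢
      exact F.cst k t t' h1 h h3 h4
    · simp only [h, if_false] at h3
      obtain rfl : t' = t := by omega
      exact ⟨rfl, rfl⟩
  L_lo k t h1 _ l hl := by
    split_ifs at hl ⊢ with h
    exacts [F.L_lo k t h1 h l hl, hl.elim]
  L_step k t h1 _ l hl := by
    split_ifs at hl ⊢ with h
    exacts [F.L_step k t h1 h l hl, Iff.rfl]
  L_alt k t h1 _ := by
    split_ifs with h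
    exacts [F.L_alt k t h1 h, Or.inl rfl]
  lf_mem u hu := by
    obtain ⟨h1, h2, h3, h4⟩ := F.lf_mem u hu
    simp only [h2, if_true]
    exact ⟨h1, by omega, h3, h4⟩

/-- start of the nodes of a new group -/
def gs {c e : ℕ} (G : Forest c e h) (b : ℕ) : ℕ → ℕ → ℕ
  | 0, _ => b
  | k + 1, t => if t < c then b else G.s k t

/-- peak levels of the nodes of a new group -/
def gL {c e : ℕ} (G : Forest c e h) (b n : ℕ) : ℕ → ℕ → Set ℕ
  | 0, _ => Set.Ico b (b + n)
  | k + 1, t => Set.Ico b (b + n) ∪ if t < c then ∅ else G.L k t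

/-- one more group: `n` peak levels, a gap and an inner forest -/
def snoc {c e : ℕ} (F : Forest a b (h + 1)) (G : Forest c e h) (n : ℕ) (hab : a ≤ b)
    (hc : b + n ≤ c) (he : c ≤ e) : Forest a e (h + 1) where
  s k t := if t < b then F.s k t else G.gs b k t
  L k t := if t < b then F.L k t else G.gL b n k t
  lf := F.lf ∪ G.lf
  P u := if u < b then F.P u else Set.Ico b (b + n) ∪ G.P u
  s_lo k t h1 h2 := by
    split_ifs with h
    · exact F.s_lo k t h1 h
    · rcases k with _ | k
      · exact hab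
      · simp only [gs]
        split_ifs with h'
        · exact hab
        · have := G.s_lo k t (by omega) h2; omega
  s_le k t h1 h2 := by
    split_ifs with h
    · exact F.s_le k t h1 h
    · rcases k with _ | k
      · simp only [gs]; omega
      · simp only [gs]
        split_ifs with h'
        · omega
        · exact G.s_le k t (by omega) h2
  s_mono k t h1 h2 := by
    split_ifs with h
    · exact F.s_mono k t h1 h
    · rcases k with _ | k
      · simp only [gs]
        split_ifs with h'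
        · exact le_rfl
        · have := G.s_lo 0 t (by omega) h2; omega
      · simp only [gs]
        split_ifs with h'
        · exact le_rfl
        · exact G.s_mono k t (by omega) h2
  cst k t t' h1 h2 h3 h4 := by
    by_cases h : t < b
    · have h' : t' < b := by omega
      simp only [h, h', if_true] at h3 ⊢
      exact F.cst k t t' h1 h h3 h4
    · simp only [h, if_false] at h3 ⊢
      rcases k with _ | k
      · have h' : ¬ t' < b := by simp only [gs] at h3; omega
        simp only [h', if_false, gs, gL, and_self]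
      · simp only [gs] at h3
        by_cases h5 : t < c
        · have h' : ¬ t' < b := by simp only [h5, if_true] at h3; omega
          have h6 : t' < c := by omega
          simp only [h', if_false, gs, gL, h5, h6, if_true, and_self]
        · simp only [h5, if_false] at h3
          have h7 := G.s_lo k t (by omega) h2
          have h' : ¬ t' < b := by omega
          have h6 : ¬ t' < c := by omega
          obtain ⟨e1, e2⟩ := G.cst k t t' (by omega) h2 h3 h4
          simp only [h', if_false, gs, gL, h5, h6, e1, e2, and_self]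
  L_lo k t h1 h2 l hl := by
    split_ifs at hl ⊢ with h
    · exact F.L_lo k t h1 h l hl
    · rcases k with _ | k
      · exact hl.1
      · simp only [gL] at hl
        simp only [gs]
        rcases hl with hl | hl
        · exact hl.1
        · split_ifs at hl with h'
          · exact hl.elim
          · have := G.L_lo k t (by omega) h2 l hl
            have := G.s_lo 0 t (by omega) h2
            omega
  L_step k t h1 h2 l hl := by
    split_ifs at hl ⊢ with h
    · exact F.L_step k t h1 h l hl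
    · rcases k with _ | k
      · simp only [gL, gs] at hl ⊢
        split_ifs at hl ⊢ with h'
        · simp
        · have : l ∉ G.L 0 t := fun hh => by have := G.L_lo 0 t (by omega) h2 l hh; omega
          simp only [Set.mem_union, this, or_false]
      · simp only [gL, gs] at hl ⊢
        split_ifs at hl ⊢ with h'
        · rfl
        · simp only [Set.mem_union, G.L_step k t (by omega) h2 l hl]
  L_alt k t h1 h2 := by
    split_ifs with h
    · exact F.L_alt k t h1 h
    · rcases k with _ | k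
      · simp only [gL, gs]
        split_ifs with h'
        · exact Or.inl rfl
        · refine Or.inr fun l hl => ?_
          have := G.s_lo 0 t (by omega) h2
          have := hl.2
          omega
      · simp only [gL, gs]
        split_ifs with h'
        · exact Or.inl rfl
        · rcases G.L_alt k t (by omega) h2 with h3 | h3
          · exact Or.inl h3
          · refine Or.inr fun l hl => ?_
            rcases hl with hl | hl
            · have := G.s_lo (k + 1) t (by omega) h2
              have := hl.2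
              omega
            · exact h3 l hl
  lf_mem u hu := by
    rcases Finset.mem_union.1 hu with hu | hu
    · obtain ⟨h1, h2, h3, h4⟩ := F.lf_mem u hu
      simp only [h2, if_true]
      exact ⟨h1, by omega, h3, h4⟩
    · obtain ⟨h1, h2, h3, h4⟩ := G.lf_mem u hu
      have h5 : ¬ u < b := by omega
      have h6 : ¬ u < c := by omega
      simp only [h5, if_false, gs, gL, h6]
      refine ⟨by omega, h2, h3, fun l hl => ?_⟩
      simp only [Set.mem_union, h4 l hl]

end Forest

end Pool.Agent.MP_fe3998_an.LS
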