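import Mathlib.Analysis.InnerProductSpace.PiL2
import Pool.Agent.MP_fe3998_an.LS.Lv

/-! The Hilbert norms attached to a forest and to a position. -/

set_option autoImplicit false

namespace Pool.Agent.MP_fe3998_an.LS

open Finset

noncomputable section

open Classical

/-- restriction of a function to a set of positions -/
def cut (S : ℕ → Prop) : (ℕ → ℂ) →ₗ[ℂ] (ℕ → ℂ) where
  toFun x a := if S a then x a else 0
  map_add' x y := by funext a; simp only [Pi.add_apply]; split_ifs <;> simp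
  map_smul' c x := by funext a; simp only [Pi.smul_apply, RingHom.id_apply]; split_ifs <;> simp

theorem cut_apply (S : ℕ → Prop) (x : ℕ → ℂ) (a : ℕ) : cut S x a = if S a then x a else 0 := rfl

theorem cut_ne {S : ℕ → Prop} {x : ℕ → ℂ} {a : ℕ} (h : cut S x a ≠ 0) : S a ∧ x a ≠ 0 := by
  rw [cut_apply] at h
  split_ifs at h with h1
  · exact ⟨h1, h⟩
  · exact (h rfl).elim

variable {K : ℕ}

/-- the digits outside `Λ` -/
def dig (K : ℕ) (Λ : Set ℕ) (a : ℕ) : Fin K → Bool := fun l => if l.1 ∈ Λ then false else a.testBit l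

theorem dig_eq {Λ : Set ℕ} {a b : ℕ} :
    dig K Λ a = dig K Λ b ↔ ∀ l < K, l ∉ Λ → a.testBit l = b.testBit l := by
  constructor
  · intro h l hl hΛ
    have := congrFun h ⟨l, hl⟩
    simpa [dig, hΛ] using this
  · intro h
    funext l
    unfold dig
    split_ifs with h1
    · rfl
    · exact h l l.2 h1

theorem dig_congr {Λ Λ' : Set ℕ} {a b m s : ℕ} (ha : lv a m ≤ s) (hb : lv b m ≤ s)
    (h : ∀ l < s, (l ∈ Λ ↔ l ∈ Λ')) : dig K Λ a = dig K Λ b ↔ dig K Λ' a = dig K Λ' b := by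
  rw [dig_eq, dig_eq]
  constructor <;> intro H l hl hΛ <;> by_cases h1 : l < s
  · exact H l hl fun h2 => hΛ ((h l h1).1 h2)
  · exact bit_eq ha hb (by omega)
  · exact H l hl fun h2 => hΛ ((h l h1).2 h2)
  · exact bit_eq ha hb (by omega)

theorem dig_inj {a b : ℕ} (ha : a < 2 ^ K) (hb : b < 2 ^ K) (h : dig K ∅ a = dig K ∅ b) :
    a = b := by
  refine Nat.eq_of_testBit_eq fun l => ?_
  by_cases hl : l < K
  · exact dig_eq.1 h l hl (by simp)
  · have : 2 ^ K ≤ 2 ^ l := Nat.pow_le_pow_right (by norm_num) (by omega)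
    rw [Nat.testBit_eq_false_of_lt (by omega), Nat.testBit_eq_false_of_lt (by omega)]

/-- sums over the classes of positions with equal digits outside `Λ` -/
def J (K : ℕ) (Λ : Set ℕ) : (ℕ → ℂ) →ₗ[ℂ] EuclideanSpace ℂ (Fin K → Bool) where
  toFun x := WithLp.toLp 2 fun y => ∑ a ∈ range (2 ^ K), if dig K Λ a = y then x a else 0
  map_add' x x' := by
    ext y
    simp only [PiLp.add_apply, Pi.add_apply, ← sum_add_distrib]
    refine sum_congr rfl fun a _ => ?_
    split_ifs <;> simp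
  map_smul' c x := by
    ext y
    simp only [PiLp.smul_apply, Pi.smul_apply, RingHom.id_apply, smul_eq_mul, mul_sum]
    refine sum_congr rfl fun a _ => ?_
    split_ifs <;> simp

theorem inner_J (Λ : Set ℕ) (y x : ℕ → ℂ) : inner ℂ (J K Λ y) (J K Λ x) =
    ∑ b ∈ range (2 ^ K), ∑ a ∈ range (2 ^ K),
      if dig K Λ a = dig K Λ b then (starRingEnd ℂ) (y b) * x a else 0 := by
  simp only [PiLp.inner_apply, J, LinearMap.coe_mk, AddHom.coe_mk, RCLike.inner_apply', map_sum,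
    sum_mul_sum]
  rw [sum_comm]
  refine sum_congr rfl fun b _ => ?_
  rw [sum_comm]
  refine sum_congr rfl fun a _ => ?_
  rw [sum_eq_single (dig K Λ b)]
  · simp only [if_true]
    split_ifs <;> simp
  · intro z _ hz
    rw [if_neg (Ne.symm hz)]; simp
  · simp

theorem J_congr {Λ Λ' : Set ℕ} {x : ℕ → ℂ}
    (h : ∀ a b, x a ≠ 0 → x b ≠ 0 → (dig K Λ a = dig K Λ b ↔ dig K Λ' a = dig K Λ' b)) :
    ‖J K Λ x‖ = ‖J K Λ' x‖ := by
  have : inner ℂ (J K Λ x) (J K Λ x) = inner ℂ (J K Λ' x) (J K Λ' x) := by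
    rw [inner_J, inner_J]
    refine sum_congr rfl fun b _ => sum_congr rfl fun a _ => ?_
    by_cases ha : x a = 0
    · simp [ha]
    by_cases hb : x b = 0
    · simp [hb]
    simp only [h a b ha hb]
  rw [inner_self_eq_norm_sq_to_K, inner_self_eq_norm_sq_to_K] at this
  have h2 : ‖J K Λ x‖ ^ 2 = ‖J K Λ' x‖ ^ 2 := by exact_mod_cast this
  exact (pow_left_inj₀ (norm_nonneg _) (norm_nonneg _) two_ne_zero).1 h2

theorem J_cut_le {Λ : Set ℕ} {S : ℕ → Prop} {x : ℕ → ℂ}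
    (h : ∀ a < 2 ^ K, ∀ b < 2 ^ K, x a ≠ 0 → x b ≠ 0 → S a → ¬ S b → dig K Λ a ≠ dig K Λ b) :
    ‖J K Λ (cut S x)‖ ≤ ‖J K Λ x‖ := by
  have e : x = cut (fun a => ¬ S a) x + cut S x := by
    funext a
    simp only [Pi.add_apply, cut_apply]
    split_ifs <;> simp_all
  have o : inner ℂ (J K Λ (cut (fun a => ¬ S a) x)) (J K Λ (cut S x)) = 0 := by
    rw [inner_J]
    refine sum_eq_zero fun b hb => sum_eq_zero fun a ha => ?_
    by_cases h1 : cut S x a = 0
    · simp [h1]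
    by_cases h2 : cut (fun a => ¬ S a) x b = 0
    · simp [h2]
    rw [if_neg (h a (mem_range.1 ha) b (mem_range.1 hb) (cut_ne h1).2 (cut_ne h2).2 (cut_ne h1).1
      (cut_ne h2).1)]
  have := norm_add_sq_eq_norm_sq_add_norm_sq_of_inner_eq_zero _ _ o
  rw [← map_add, ← e] at this
  nlinarith [norm_nonneg (J K Λ x), norm_nonneg (J K Λ (cut S x)),
    mul_self_nonneg ‖J K Λ (cut (fun a => ¬ S a) x)‖]

theorem J_ext {Λ : Set ℕ} {x x' : ℕ → ℂ} (h : ∀ a < 2 ^ K, x a = x' a) : J K Λ x = J K Λ x' := by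
  ext y
  simp only [J, LinearMap.coe_mk, AddHom.coe_mk]
  exact sum_congr rfl fun a ha => by rw [h a (mem_range.1 ha)]

theorem geo {lam : ℝ} (h0 : 0 < lam) (n0 : ℝ) (n : ℕ → ℝ) (h : ℕ) :
    (1 - lam) ^ 2 * (n0 ^ 2 + ∑ k ∈ range h, (lam ^ (k + 1) * (n0 + ∑ i ∈ range (k + 1), n i)) ^ 2)
      + lam * (1 - lam) * (lam ^ h * (n0 + ∑ i ∈ range h, n i)) ^ 2
      ≤ n0 ^ 2 + ∑ k ∈ range h, (lam ^ (k + 1) * n k) ^ 2 := by
  induction h with
  | zero => simp only [range_zero, sum_empty, add_zero, pow_zero, one_mul]; nlinarith [sq_nonneg n0]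
  | succ h ih =>
    rw [sum_range_succ (fun k => (lam ^ (k + 1) * (n0 + ∑ i ∈ range (k + 1), n i)) ^ 2),
      sum_range_succ (fun k => (lam ^ (k + 1) * n k) ^ 2), sum_range_succ n]
    have e : lam ^ (h + 1) * (n0 + (∑ i ∈ range h, n i + n h)) =
        lam * (lam ^ h * (n0 + ∑ i ∈ range h, n i)) + lam ^ (h + 1) * n h := by ring
    rw [e]
    generalize lam ^ h * (n0 + ∑ i ∈ range h, n i) = S at *
    generalize lam ^ (h + 1) * n h = r at *
    nlinarith [mul_nonneg h0.le (sq_nonneg ((1 - lam) * S - r))]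

variable {h : ℕ}

/-- the space in which the norms are realised -/
abbrev Hs (K h : ℕ) := PiLp 2 fun _ : Option (Fin h × Fin K) => EuclideanSpace ℂ (Fin K → Bool)

/-- size of the node of depth `k` with start `σ` seen from the position `m` -/
def nd (F : Forest 0 K h) (m k σ : ℕ) : (ℕ → ℂ) →ₗ[ℂ] EuclideanSpace ℂ (Fin K → Bool) :=
  J K (F.L k σ) ∘ₗ cut fun a => a ≠ m ∧ F.s k (lv a m - 1) = σ

/-- the embedding that defines the norm at the position `m` -/
def emb (F : Forest 0 K h) (lam : ℝ) (m : ℕ) : (ℕ → ℂ) →ₗ[ℂ] Hs K h :=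
  (WithLp.linearEquiv 2 ℂ _).symm.toLinearMap ∘ₗ LinearMap.pi fun o =>
    match o with
    | none => J K ∅
    | some p => ((lam ^ (p.1.1 + 1) : ℝ) : ℂ) • nd F m p.1 p.2

theorem emb_sq (F : Forest 0 K h) (lam : ℝ) (m : ℕ) (x : ℕ → ℂ) :
    ‖emb F lam m x‖ ^ 2 = ‖J K ∅ x‖ ^ 2 +
      ∑ k ∈ range h, ∑ σ ∈ range K, (lam ^ (k + 1) * ‖nd F m k σ x‖) ^ 2 := by
  rw [PiLp.norm_sq_eq_of_L2, Fintype.sum_option, Fintype.sum_prod_type,
    ← Fin.sum_univ_eq_sum_range (fun k => ∑ σ ∈ range K, (lam ^ (k + 1) * ‖nd F m k σ x‖) ^ 2)]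
  congr 1
  refine sum_congr rfl fun k _ => ?_
  rw [← Fin.sum_univ_eq_sum_range (fun σ => (lam ^ (k.1 + 1) * ‖nd F m k σ x‖) ^ 2)]
  refine sum_congr rfl fun σ _ => ?_
  have : emb F lam m x (some (k, σ)) = ((lam ^ (k.1 + 1) : ℝ) : ℂ) • nd F m k σ x := rfl
  rw [this, norm_smul, Complex.norm_real, mul_pow, mul_pow, Real.norm_eq_abs, sq_abs]

theorem emb_ext (F : Forest 0 K h) (lam : ℝ) (m : ℕ) {x x' : ℕ → ℂ}
    (H : ∀ a < 2 ^ K, x a = x' a) : ‖emb F lam m x‖ ^ 2 = ‖emb F lam m x'‖ ^ 2 := by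
  rw [emb_sq, emb_sq, J_ext H]
  congr 1
  refine sum_congr rfl fun k _ => sum_congr rfl fun σ _ => ?_
  have : nd F m k σ x = nd F m k σ x' := J_ext fun a ha => by rw [cut_apply, cut_apply, H a ha]
  rw [this]

theorem s_chain (F : Forest 0 K h) {m t : ℕ} (hm : m < 2 ^ K) (ht : t < K) (x : ℕ → ℂ) (k : ℕ) :
    ‖J K (F.L k t) (cut (fun a => lv a m ≤ F.s k t) x)‖ ≤
      ‖J K ∅ x‖ + ∑ i ∈ range k, ‖nd F m i (F.s i t) x‖ := by
  have z := Nat.zero_le t
  induction k with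
  | zero =>
    rw [range_zero, sum_empty, add_zero, J_congr (Λ' := ∅)]
    · exact J_cut_le fun a ha b hb _ _ h1 h2 h3 => h2 (dig_inj ha hb h3 ▸ h1)
    · intro a b ha hb
      refine dig_congr (cut_ne ha).1 (cut_ne hb).1 fun l hl => ⟨fun h1 => ?_, fun h1 => h1.elim⟩
      have := F.L_lo 0 t z ht l h1
      omega
  | succ k ih =>
    rw [sum_range_succ, J_congr (Λ' := F.L k t) (x := cut (fun a => lv a m ≤ F.s (k + 1) t) x)
      fun a b ha hb => dig_congr (cut_ne ha).1 (cut_ne hb).1 (F.L_step k t z ht)]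
    rcases F.L_alt k t z ht with h1 | h1
    · rw [h1]; linarith [norm_nonneg (nd F m k (F.s k t) x)]
    have hs := F.s_mono k t z ht
    have hs' := F.s_le (k + 1) t z ht
    have e : cut (fun a => lv a m ≤ F.s (k + 1) t) x = cut (fun a => lv a m ≤ F.s k t) x +
        cut (fun a => lv a m ≤ F.s (k + 1) t)
          (cut (fun a => a ≠ m ∧ F.s k (lv a m - 1) = F.s k t) x) := by
      funext a
      simp only [Pi.add_apply, cut_apply]
      by_cases h2 : lv a m ≤ F.s (k + 1) t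
      · by_cases h3 : lv a m ≤ F.s k t
        · have : ¬ (a ≠ m ∧ F.s k (lv a m - 1) = F.s k t) := fun h4 => by
            have := F.s_le k (lv a m - 1) (Nat.zero_le _) (by omega)
            have := lv_eq_zero.not.2 h4.1
            omega
          simp only [h2, h3, this, if_true, if_false, add_zero]
        · have : a ≠ m ∧ F.s k (lv a m - 1) = F.s k t :=
            ⟨fun h4 => by have := lv_eq_zero.2 h4; omega,
              (F.cst k t _ z ht (by omega) (by omega)).1⟩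
          simp only [h2, h3, this, if_true, if_false, zero_add, ne_eq, not_false_eq_true, and_self]
      · have h3 : ¬ lv a m ≤ F.s k t := by omega
        simp only [h2, h3, if_false, add_zero]
    have e2 : F.L k (F.s k t) = F.L k t := (F.cst k t _ z ht le_rfl (F.s_le k t z ht)).2
    have b2 : ‖J K (F.L k t) (cut (fun a => lv a m ≤ F.s (k + 1) t)
        (cut (fun a => a ≠ m ∧ F.s k (lv a m - 1) = F.s k t) x))‖ ≤ ‖nd F m k (F.s k t) x‖ := by
      unfold nd
      rw [e2]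
      refine J_cut_le fun a _ b hb _ _ h2 h3 h4 => ?_
      have h5 := lv_le_of_lt hb hm
      refine bit_ne (a := b) (b := a) (m := m) (t := lv b m - 1) (by omega) (by omega)
        (dig_eq.1 h4 _ (by omega) fun h6 => ?_).symm
      have := h1 _ h6
      omega
    rw [e, map_add]
    linarith [norm_add_le (J K (F.L k t) (cut (fun a => lv a m ≤ F.s k t) x))
      (J K (F.L k t) (cut (fun a => lv a m ≤ F.s (k + 1) t)
        (cut (fun a => a ≠ m ∧ F.s k (lv a m - 1) = F.s k t) x)))]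

theorem node_sum (F : Forest 0 K h) (lam : ℝ) (m : ℕ) {t : ℕ} (ht : t < K) (x : ℕ → ℂ) :
    ‖emb F lam m x‖ ^ 2 = (‖J K ∅ x‖ ^ 2 +
      ∑ k ∈ range h, (lam ^ (k + 1) * ‖nd F m k (F.s k t) x‖) ^ 2) +
      ∑ k ∈ range h, ∑ σ ∈ (range K).erase (F.s k t), (lam ^ (k + 1) * ‖nd F m k σ x‖) ^ 2 := by
  rw [emb_sq, add_assoc, ← sum_add_distrib]
  congr 1
  refine sum_congr rfl fun k _ => ?_
  have := F.s_le k t (Nat.zero_le _) ht
  exact (add_sum_erase (range K) (fun σ => (lam ^ (k + 1) * ‖nd F m k σ x‖) ^ 2)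
    (mem_range.2 (by omega))).symm

theorem emb_leaf (F : Forest 0 K h) {lam : ℝ} (h0 : 0 < lam) (h1 : lam < 1) {m u : ℕ}
    (hm : m < 2 ^ K) (hu : u ∈ F.lf) (x : ℕ → ℂ) :
    lam * (1 - lam) * (lam ^ h * ‖J K (F.P u ∪ Set.Ici u) (cut (fun a => lv a m ≤ u) x)‖) ^ 2
      ≤ ‖emb F lam m x‖ ^ 2 := by
  obtain ⟨-, h2, h3, h4⟩ := F.lf_mem u hu
  have c1 := s_chain F hm h2 x h
  rw [h3, J_congr (Λ' := F.P u ∪ Set.Ici u) (x := cut (fun a => lv a m ≤ u) x)
    fun a b ha hb => dig_congr (cut_ne ha).1 (cut_ne hb).1 fun l hl => by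
      simp only [Set.mem_union, Set.mem_Ici, h4 l hl, not_le.2 hl, or_false]] at c1
  have g := geo h0 ‖J K ∅ x‖ (fun i => ‖nd F m i (F.s i u) x‖) h
  rw [node_sum F lam m h2]
  have p1 : 0 ≤ ∑ k ∈ range h, ∑ σ ∈ (range K).erase (F.s k u),
    (lam ^ (k + 1) * ‖nd F m k σ x‖) ^ 2 := by positivity
  have p2 : 0 ≤ (1 - lam) ^ 2 * (‖J K ∅ x‖ ^ 2 + ∑ k ∈ range h, (lam ^ (k + 1) *
    (‖J K ∅ x‖ + ∑ i ∈ range (k + 1), ‖nd F m i (F.s i u) x‖)) ^ 2) := by positivity
  have p3 : 0 ≤ lam * (1 - lam) := mul_nonneg h0.le (by linarith)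
  refine le_trans ?_ (by linarith : lam * (1 - lam) * (lam ^ h *
    (‖J K ∅ x‖ + ∑ i ∈ range h, ‖nd F m i (F.s i u) x‖)) ^ 2 ≤ _)
  gcongr

theorem emb_move (F : Forest 0 K h) {lam : ℝ} (h0 : 0 < lam) (h1 : lam < 1) {m m' : ℕ}
    (hm : m < 2 ^ K) (hm' : m' < 2 ^ K) (hne : m ≠ m') (x : ℕ → ℂ)
    (hx : ∀ a < 2 ^ K, x a ≠ 0 → lv a m' = max (lv a m) (lv m m')) :
    (1 - lam) ^ 2 * ‖emb F lam m' x‖ ^ 2 ≤ ‖emb F lam m x‖ ^ 2 := by
  obtain ⟨t, ht⟩ := Nat.exists_eq_succ_of_ne_zero (lv_eq_zero.not.2 hne)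
  have hK : t < K := by have := lv_le_of_lt hm hm'; omega
  have z := Nat.zero_le t
  rw [node_sum F lam m hK, node_sum F lam m' hK]
  have g := geo h0 ‖J K ∅ x‖ (fun i => ‖nd F m i (F.s i t) x‖) h
  have p3 : 0 ≤ lam * (1 - lam) * (lam ^ h *
      (‖J K ∅ x‖ + ∑ i ∈ range h, ‖nd F m i (F.s i t) x‖)) ^ 2 :=
    mul_nonneg (mul_nonneg h0.le (by linarith)) (sq_nonneg _)
  have a1 : ∀ k, ‖nd F m' k (F.s k t) x‖ ≤
      ‖J K ∅ x‖ + ∑ i ∈ range (k + 1), ‖nd F m i (F.s i t) x‖ := by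
    intro k
    have hs := F.s_le k t z hK
    have e2 : F.L k (F.s k t) = F.L k t := (F.cst k t _ z hK le_rfl hs).2
    have e : nd F m' k (F.s k t) x =
        J K (F.L k t) (cut (fun a => lv a m ≤ F.s k t) x) + nd F m k (F.s k t) x := by
      unfold nd
      rw [e2, LinearMap.comp_apply, LinearMap.comp_apply, ← map_add]
      refine J_ext fun a ha => ?_
      simp only [Pi.add_apply, cut_apply]
      by_cases hz : x a = 0
      · simp [hz]
      have h2 := hx a ha hz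
      have h3 := lv_le_of_lt ha hm
      have h4 : a ≠ m' := fun h4 => by have := lv_eq_zero.2 h4; omega
      by_cases h5 : lv a m ≤ F.s k t
      · have h6 : lv a m' - 1 = t := by omega
        have h7 : ¬ (a ≠ m ∧ F.s k (lv a m - 1) = F.s k t) := fun h7 => by
          have := F.s_le k (lv a m - 1) (Nat.zero_le _) (by omega)
          have := lv_eq_zero.not.2 h7.1
          omega
        rw [if_pos ⟨h4, by rw [h6]⟩, if_pos h5, if_neg h7, add_zero]
      · have h6 : a ≠ m := fun h6 => by have := lv_eq_zero.2 h6; omega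
        rw [if_neg h5, zero_add]
        by_cases h7 : lv a m - 1 ≤ t
        · have h8 : lv a m' - 1 = t := by omega
          rw [if_pos ⟨h4, by rw [h8]⟩, if_pos ⟨h6, (F.cst k t _ z hK (by omega) h7).1⟩]
        · have h8 : lv a m' = lv a m := by omega
          simp only [h8, h4, h6, ne_eq, not_false_eq_true]
    rw [e, sum_range_succ]
    linarith [s_chain F hm hK x k, norm_add_le
      (J K (F.L k t) (cut (fun a => lv a m ≤ F.s k t) x)) (nd F m k (F.s k t) x)]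
  have a2 : ∀ k, ∀ σ ∈ (range K).erase (F.s k t), ‖nd F m' k σ x‖ ≤ ‖nd F m k σ x‖ := by
    intro k σ hσ
    have hσ' := ne_of_mem_erase hσ
    by_cases h5 : σ ≤ t
    · have : nd F m' k σ x = J K (F.L k σ) 0 := by
        refine J_ext fun a ha => ?_
        by_contra h6
        obtain ⟨⟨-, h7⟩, hz⟩ := cut_ne h6
        have h2 := hx a ha hz
        have h3 := lv_le_of_lt ha hm'
        have := (F.cst k (lv a m' - 1) t (Nat.zero_le _) (by omega) (by omega) (by omega)).1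
        omega
      rw [this, map_zero, norm_zero]
      exact norm_nonneg _
    · refine le_of_eq (congrArg norm (J_ext fun a ha => ?_))
      rw [cut_apply, cut_apply]
      by_cases hz : x a = 0
      · simp [hz]
      have h2 := hx a ha hz
      have h3 := lv_le_of_lt ha hm
      have h3' := lv_le_of_lt ha hm'
      have h4 : a ≠ m' := fun h4 => by have := lv_eq_zero.2 h4; omega
      suffices H : (a ≠ m' ∧ F.s k (lv a m' - 1) = σ) ↔ (a ≠ m ∧ F.s k (lv a m - 1) = σ) by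
        by_cases h6 : a ≠ m ∧ F.s k (lv a m - 1) = σ
        · rw [if_pos h6, if_pos (H.2 h6)]
        · rw [if_neg h6, if_neg fun h7 => h6 (H.1 h7)]
      refine ⟨fun h6 => ?_, fun h6 => ?_⟩
      · have := F.s_le k (lv a m' - 1) (Nat.zero_le _) (by omega)
        have h8 : lv a m' = lv a m := by omega
        exact ⟨fun h9 => by have := lv_eq_zero.2 h9; omega, h8 ▸ h6.2⟩
      · have := F.s_le k (lv a m - 1) (Nat.zero_le _) (by omega)
        have h8 : lv a m' = lv a m := by omega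
        exact ⟨h4, h8 ▸ h6.2⟩
  have b1 : ∑ k ∈ range h, (lam ^ (k + 1) * ‖nd F m' k (F.s k t) x‖) ^ 2 ≤ ∑ k ∈ range h,
      (lam ^ (k + 1) * (‖J K ∅ x‖ + ∑ i ∈ range (k + 1), ‖nd F m i (F.s i t) x‖)) ^ 2 :=
    sum_le_sum fun k _ => pow_le_pow_left₀ (by positivity)
      (mul_le_mul_of_nonneg_left (a1 k) (by positivity)) 2
  have b2 : ∑ k ∈ range h, ∑ σ ∈ (range K).erase (F.s k t),
      (lam ^ (k + 1) * ‖nd F m' k σ x‖) ^ 2 ≤ ∑ k ∈ range h, ∑ σ ∈ (range K).erase (F.s k t),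
      (lam ^ (k + 1) * ‖nd F m k σ x‖) ^ 2 :=
    sum_le_sum fun k _ => sum_le_sum fun σ hσ => pow_le_pow_left₀ (by positivity)
      (mul_le_mul_of_nonneg_left (a2 k σ hσ) (by positivity)) 2
  have p1 : 0 ≤ ∑ k ∈ range h, ∑ σ ∈ (range K).erase (F.s k t),
    (lam ^ (k + 1) * ‖nd F m' k σ x‖) ^ 2 :=
    sum_nonneg fun _ _ => sum_nonneg fun _ _ => sq_nonneg _
  have q1 : (1 - lam) ^ 2 ≤ 1 := by nlinarith
  have q2 := mul_le_mul_of_nonneg_left b1 (sq_nonneg (1 - lam))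
  have q3 := mul_le_mul_of_nonneg_right q1 p1
  linarith

theorem emb_one (F : Forest 0 K h) (lam : ℝ) {m : ℕ} (hm : m < 2 ^ K) {x : ℕ → ℂ}
    (hx : ∀ a, x a = if a = m then 1 else 0) : ‖emb F lam m x‖ ^ 2 = 1 := by
  have e1 : ∀ k σ, nd F m k σ x = 0 := fun k σ => by
    have : nd F m k σ x = J K (F.L k σ) 0 := J_ext fun a _ => by
      by_contra h6
      obtain ⟨⟨h7, -⟩, hz⟩ := cut_ne h6
      exact hz (by rw [hx, if_neg h7])
    rw [this, map_zero]
  have e2 : inner ℂ (J K ∅ x) (J K ∅ x) = 1 := by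
    rw [inner_J, sum_eq_single m, sum_eq_single m]
    · simp [hx]
    · intro a _ ha; simp [hx, ha]
    · simp [hm]
    · intro a _ ha; simp [hx, ha]
    · simp [hm]
  rw [inner_self_eq_norm_sq_to_K] at e2
  have e3 : ‖J K ∅ x‖ ^ 2 = 1 := by
    apply Complex.ofReal_injective
    push_cast
    exact e2
  simp [emb_sq, e1, e3]

end

end Pool.Agent.MP_fe3998_an.LS
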