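import Mathlib.Analysis.SpecialFunctions.Log.Basic
import Pool.Agent.MP_fe3998_an.LS.Link

/-! A power bounded operator whose polynomial calculus grows like `log N / C ^ (log* N)`. -/

set_option autoImplicit false

namespace Pool.Agent.MP_fe3998_an.LS

theorem lower (c : ℝ) (hc : 1 < c) :
    ∃ (H : Type) (_ : NormedAddCommGroup H) (_ : InnerProductSpace ℂ H) (_ : CompleteSpace H)
      (T : H →L[ℂ] H), (∀ n : ℕ, ‖T ^ n‖ ≤ c) ∧ ∃ C : ℝ, 1 ≤ C ∧ ∀ h N : ℕ, 2 ≤ N →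
        N ≤ (fun x : ℕ => 2 ^ x)^[h] 1 → ∃ p : Polynomial ℂ, p.natDegree ≤ N ∧
          (∀ z : ℂ, ‖z‖ ≤ 1 → ‖p.eval z‖ ≤ 1) ∧
          Real.log N / C ^ h ≤ ‖Polynomial.aeval T p‖ := by
  have tw_eq : ∀ h, (fun x : ℕ => 2 ^ x)^[h] 1 = tw h := fun h => by
    induction h with
    | zero => rfl
    | succ h ih => rw [Function.iterate_succ_apply', ih]; rfl
  obtain ⟨lam, h0, h1, h2⟩ : ∃ lam : ℝ, 0 < lam ∧ lam < 1 ∧ (1 - lam)⁻¹ + (c - 1) / 2 = c := by
    refine ⟨1 - ((1 + c) / 2)⁻¹, ?_, ?_, ?_⟩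
    · have := inv_lt_one_of_one_lt₀ (by linarith : 1 < (1 + c) / 2); linarith
    · have := inv_pos.2 (by linarith : 0 < (1 + c) / 2); linarith
    · rw [sub_sub_cancel, inv_inv]; ring
  have hδ : 0 < (c - 1) / 2 := by linarith
  generalize (c - 1) / 2 = δ at *
  have fam := fun i : {i : ℕ × ℕ // 1 ≤ i.2 ∧ i.2 ≤ tw i.1} =>
    single_op (St.main i.1.1 i.1.2 i.2.1 i.2.2 0).choose_spec h0 h1 hδ.le
  choose H i1 i2 i3 T hT p p1 p2 p3 using fam
  obtain ⟨S, s1, s2⟩ := dsum (by linarith : 0 ≤ c) H T fun i n => h2 ▸ hT i n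
  have hA : 0 < δ * (lam * (1 - lam)) / 256 := by
    have : 0 < 1 - lam := by linarith
    positivity
  have hB : 1 ≤ max 1 (δ * (lam * (1 - lam)) / 256)⁻¹ := le_max_left _ _
  have hB' : (δ * (lam * (1 - lam)) / 256)⁻¹ ≤ max 1 (δ * (lam * (1 - lam)) / 256)⁻¹ :=
    le_max_right _ _
  generalize max 1 (δ * (lam * (1 - lam)) / 256)⁻¹ = B at *
  have hl : 1 ≤ 64 / lam ^ 2 := by rw [le_div_iff₀ (by positivity)]; nlinarith
  refine ⟨lp H 2, inferInstance, inferInstance, inferInstance, S, s1, 64 / lam ^ 2 * B,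
    one_le_mul_of_one_le_of_one_le hl hB, fun h N hN hh => ?_⟩
  rw [tw_eq] at hh
  have k1 : 2 ^ Nat.log 2 N ≤ N := Nat.pow_log_le_self 2 (by omega)
  have k2 : N < 2 ^ (Nat.log 2 N + 1) := Nat.lt_pow_succ_log_self one_lt_two N
  have k3 : 1 ≤ Nat.log 2 N := Nat.log_pos one_lt_two hN
  generalize Nat.log 2 N = K at *
  have k4 : K < 2 ^ K := Nat.lt_two_pow_self
  have k5 : h ≠ 0 := by rintro rfl; simp only [tw] at hh; omega
  have k6 : K ≤ tw h := by omega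
  have q1 := p1 ⟨(h, K), k3, k6⟩
  have q3 := (p3 ⟨(h, K), k3, k6⟩).trans (s2 _ _)
  simp only [zero_add] at q1
  refine ⟨_, q1.trans k1, p2 _, le_trans ?_ q3⟩
  have l1 : Real.log N ≤ 2 * K := by
    have a1 : (N : ℝ) ≤ 2 ^ (K + 1) := by exact_mod_cast k2.le
    have a2 := Real.log_le_log (by positivity) a1
    have a3 : (1 : ℝ) ≤ K := by exact_mod_cast k3
    have a4 := Real.log_le_sub_one_of_pos (by norm_num : (0 : ℝ) < 2)
    rw [Real.log_pow] at a2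
    push_cast at a2
    nlinarith
  have l2 : (δ * (lam * (1 - lam)) / 256)⁻¹ ≤ B ^ h := hB'.trans (le_self_pow₀ hB k5)
  rw [inv_le_iff_one_le_mul₀ hA] at l2
  rw [div_le_iff₀ (by positivity)]
  refine l1.trans ((le_mul_of_one_le_right (by positivity) l2).trans (le_of_eq ?_))
  simp only [mul_pow, div_pow, ← pow_mul, mul_comm 2 h]
  field_simp
  ring

end Pool.Agent.MP_fe3998_an.LS
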